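import Pool.Agent.H261R3.LN.Stmts
import Pool.Agent.H26R3.LH.StageD

/-! Task `TaskStage3N` of the project LN: push the contents of the cells downwards.  (helper676) -/

set_option autoImplicit false

namespace Pool.Agent.H676R4.LN3

open Pool.Agent.H261R3.LH (Lip1 clip clip_nonneg)
open Pool.Agent.H26R3.LH (clip_le_one clip_of_mem clip_of_le clip_of_ge clip_lip LipU LipU.lip1
  LipU.glue)
open Pool.Agent.H261R3.LN

variable {S : Type} [MetricSpace S] {m : ℕ}

/-! ### clip -/

/-- coordinatewise clip -/
noncomputable def clipv (s : Fin (m + 1) → ℝ) : Fin (m + 1) → ℝ := fun i => clip (s i)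

theorem dist_clipv (x y : Fin (m + 1) → ℝ) : dist (clipv x) (clipv y) ≤ dist x y := by
  refine (dist_pi_le_iff dist_nonneg).mpr fun i => ?_
  rw [Real.dist_eq]
  refine (clip_lip _ _).trans ?_
  rw [← Real.dist_eq]
  exact dist_le_pi_dist x y i

theorem clipv_of_mem {s : Fin (m + 1) → ℝ} (hs : InCube s) : clipv s = s := by
  funext i
  exact clip_of_mem (hs i).1 (hs i).2

theorem clipv_mem (s : Fin (m + 1) → ℝ) : InCube (clipv s) := fun _ =>
  ⟨clip_nonneg _, clip_le_one _⟩

/-- a coordinatewise bound gives a bound for the sup distance -/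
theorem dist_of_coord {x y : Fin (m + 1) → ℝ} {r : ℝ} (hr : 0 ≤ r) (h : ∀ i, |x i - y i| ≤ r) :
    dist x y ≤ r :=
  (dist_pi_le_iff hr).mpr fun i => by rw [Real.dist_eq]; exact h i

theorem coord_le (x y : Fin (m + 1) → ℝ) (i : Fin (m + 1)) : |x i - y i| ≤ dist x y := by
  rw [← Real.dist_eq]
  exact dist_le_pi_dist x y i

/-! ### contents -/

/-- A content: `C`-Lipschitz in each variable, equal to `p` outside the open unit cube. -/
structure ConN (C : ℝ) (p : S) (A : (Fin (m + 1) → ℝ) → ℝ → S) : Prop where
  lip : ∀ x x' y y', dist (A x y) (A x' y') ≤ C * dist x x' + C * |y - y'|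
  out : ∀ x y, ((∃ i, x i ≤ 0 ∨ 1 ≤ x i) ∨ y ≤ 0 ∨ 1 ≤ y) → A x y = p

theorem con_const {C : ℝ} (hC : 0 ≤ C) (p : S) :
    ConN C p (fun (_ : Fin (m + 1) → ℝ) (_ : ℝ) => p) where
  lip x x' y y' := by
    rw [dist_self]
    have := dist_nonneg (x := x) (y := x')
    positivity
  out _ _ _ := rfl

theorem con_clip {C : ℝ} {p : S} {A : (Fin (m + 1) → ℝ) → ℝ → S} (hC : 0 ≤ C)
    (h1 : ∀ y, LipN C (fun x => A x y)) (h2 : ∀ x, Lip1 C (fun y => A x y))
    (hb : ∀ x, A x 0 = p ∧ A x 1 = p) (hv : ∀ x y, Bd x → A x y = p) :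
    ConN C p (fun x y => A (clipv x) (clip y)) where
  lip x x' y y' := by
    calc dist (A (clipv x) (clip y)) (A (clipv x') (clip y'))
        ≤ dist (A (clipv x) (clip y)) (A (clipv x') (clip y)) +
          dist (A (clipv x') (clip y)) (A (clipv x') (clip y')) := dist_triangle _ _ _
      _ ≤ C * dist (clipv x) (clipv x') + C * |clip y - clip y'| :=
          add_le_add (h1 (clip y) (clipv x) (clipv x')) (h2 (clipv x') (clip y) (clip y'))
      _ ≤ C * dist x x' + C * |y - y'| :=
          add_le_add (mul_le_mul_of_nonneg_left (dist_clipv _ _) hC)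
            (mul_le_mul_of_nonneg_left (clip_lip _ _) hC)
  out x y h := by
    show A (clipv x) (clip y) = p
    rcases h with ⟨i, h⟩ | h | h
    · apply hv
      refine ⟨i, ?_⟩
      rcases h with h | h
      · left; exact clip_of_le h
      · right; exact clip_of_ge h
    · rw [clip_of_le h]; exact (hb _).1
    · rw [clip_of_ge h]; exact (hb _).2

/-! ### the motion -/

/-- `1` at the first coordinate, `0` elsewhere -/
noncomputable def dl (i : Fin (m + 1)) : ℝ := if i = 0 then 1 else 0

theorem dl_zero : dl (0 : Fin (m + 1)) = 1 := if_pos rfl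

theorem dl_nonneg (i : Fin (m + 1)) : 0 ≤ dl i := by
  unfold dl; split_ifs <;> norm_num

theorem dl_le (i : Fin (m + 1)) : dl i ≤ 1 := by
  unfold dl; split_ifs <;> norm_num

/-- first half of the motion -/
noncomputable def XX (t : ℝ) (s : Fin (m + 1) → ℝ) : Fin (m + 1) → ℝ :=
  fun i => (s i - dl i * t) / (1 - t)

/-- the position at time one half -/
noncomputable def RR (s : Fin (m + 1) → ℝ) : Fin (m + 1) → ℝ := fun i => 2 * s i - dl i

theorem XX_half (s : Fin (m + 1) → ℝ) : XX (1 / 2) s = RR s := by
  funext i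
  unfold XX RR
  field_simp
  ring

/-- The motion in one cell: `A` is the content of the cell, `B` the incoming content. -/
noncomputable def W (A B : (Fin (m + 1) → ℝ) → ℝ → S) (t : ℝ) (s : Fin (m + 1) → ℝ) (h : ℝ) : S :=
  if t ≤ 1 / 2 then A (XX t s) ((1 + 2 * t) * h)
  else if 1 / 2 ≤ h then B (fun i => s i / h) (2 * t - 1)
  else if s 0 ≤ 1 / 2 then B (fun i => 2 * s i) (2 * t - 1)
  else A (RR s) (2 * h + (2 * t - 1))

section W

variable {C : ℝ} {p : S} {A B : (Fin (m + 1) → ℝ) → ℝ → S}

theorem W_first (t : ℝ) (s : Fin (m + 1) → ℝ) (h : ℝ) (ht : t ≤ 1 / 2) :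
    W A B t s h = A (XX t s) ((1 + 2 * t) * h) := if_pos ht

theorem W_half (s : Fin (m + 1) → ℝ) (h : ℝ) : W A B (1 / 2) s h = A (RR s) (2 * h) := by
  rw [W_first _ _ _ le_rfl, XX_half]
  congr 1
  ring

theorem W_top (hA : ConN C p A) (hB : ConN C p B) (t : ℝ) (s : Fin (m + 1) → ℝ) (h : ℝ)
    (ht : 1 / 2 ≤ t) (hh : 1 / 2 ≤ h) :
    W A B t s h = B (fun i => s i / h) (2 * t - 1) := by
  rcases ht.eq_or_lt with h1 | h1
  · subst h1
    rw [W_half, hA.out _ _ (Or.inr (Or.inr (by linarith))),
      hB.out _ _ (Or.inr (Or.inl (by norm_num)))]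
  · unfold W
    rw [if_neg (not_le.mpr h1), if_pos hh]

theorem W_left (hA : ConN C p A) (hB : ConN C p B) (t : ℝ) (s : Fin (m + 1) → ℝ) (h : ℝ)
    (ht : 1 / 2 ≤ t) (hh : h ≤ 1 / 2) (hs : s 0 ≤ 1 / 2) :
    W A B t s h = B (fun i => 2 * s i) (2 * t - 1) := by
  rcases ht.eq_or_lt with h1 | h1
  · subst h1
    rw [W_half, hA.out _ _ (Or.inl ⟨0, Or.inl ?_⟩),
      hB.out _ _ (Or.inr (Or.inl (by norm_num)))]
    unfold RR
    rw [dl_zero]
    linarith
  · rcases hh.eq_or_lt with h2 | h2
    · subst h2
      rw [W_top hA hB _ _ _ ht le_rfl]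
      congr 1
      funext i
      ring
    · unfold W
      rw [if_neg (not_le.mpr h1), if_neg (not_le.mpr h2), if_pos hs]

theorem W_right (hA : ConN C p A) (hB : ConN C p B) (t : ℝ) (s : Fin (m + 1) → ℝ) (h : ℝ)
    (ht : 1 / 2 ≤ t) (hh : h ≤ 1 / 2) (hs : 1 / 2 ≤ s 0) :
    W A B t s h = A (RR s) (2 * h + (2 * t - 1)) := by
  rcases ht.eq_or_lt with h1 | h1
  · subst h1
    rw [W_half]
    congr 1
    ring
  · rcases hh.eq_or_lt with h2 | h2
    · subst h2
      rw [W_top hA hB _ _ _ ht le_rfl, hB.out _ _ (Or.inl ⟨0, Or.inr ?_⟩),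
        hA.out _ _ (Or.inr (Or.inr (by linarith)))]
      rw [le_div_iff₀ (by norm_num)]
      linarith
    · rcases hs.eq_or_lt with h3 | h3
      · rw [W_left hA hB _ _ _ ht hh h3.symm.le, hB.out _ _ (Or.inl ⟨0, Or.inr (by linarith)⟩),
          hA.out _ _ (Or.inl ⟨0, Or.inl ?_⟩)]
        unfold RR
        rw [dl_zero]
        linarith
      · unfold W
        rw [if_neg (not_le.mpr h1), if_neg (not_le.mpr h2), if_neg (not_le.mpr h3)]

theorem W_bd (hA : ConN C p A) (hB : ConN C p B) (t : ℝ) (s : Fin (m + 1) → ℝ) (h : ℝ)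
    (ht0 : 0 ≤ t) (hh1 : h ≤ 1) (hs : Bd s) : W A B t s h = p := by
  obtain ⟨i, hi⟩ := hs
  have hd0 := dl_nonneg i
  have hd1 := dl_le i
  rcases le_total t (1 / 2) with ht | ht
  · rw [W_first _ _ _ ht]
    refine hA.out _ _ (Or.inl ⟨i, ?_⟩)
    unfold XX
    rcases hi with hi | hi
    · left
      rw [hi]
      exact div_nonpos_of_nonpos_of_nonneg (by nlinarith) (by linarith)
    · right
      rw [hi, le_div_iff₀ (by linarith)]
      nlinarith
  · rcases le_total (1 / 2) h with hh | hh
    · rw [W_top hA hB _ _ _ ht hh]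
      refine hB.out _ _ (Or.inl ⟨i, ?_⟩)
      rcases hi with hi | hi
      · left
        simp [hi]
      · right
        simp only [hi]
        rw [le_div_iff₀ (by linarith)]
        linarith
    · rcases le_total (s 0) (1 / 2) with h0 | h0
      · rw [W_left hA hB _ _ _ ht hh h0]
        refine hB.out _ _ (Or.inl ⟨i, ?_⟩)
        rcases hi with hi | hi
        · left; simp [hi]
        · right; simp only [hi]; norm_num
      · rw [W_right hA hB _ _ _ ht hh h0]
        refine hA.out _ _ (Or.inl ⟨i, ?_⟩)
        unfold RR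
        rcases hi with hi | hi
        · left; rw [hi]; linarith
        · right; rw [hi]; linarith

theorem W_lip_s (hC : 0 ≤ C) (hA : ConN C p A) (hB : ConN C p B) (t h : ℝ)
    (s s' : Fin (m + 1) → ℝ) :
    dist (W A B t s h) (W A B t s' h) ≤ 6 * C * dist s s' := by
  have hd : 0 ≤ dist s s' := dist_nonneg
  have hCd : 0 ≤ C * dist s s' := mul_nonneg hC hd
  rcases le_total t (1 / 2) with ht | ht
  · rw [W_first _ _ _ ht, W_first _ _ _ ht]
    refine (hA.lip _ _ _ _).trans ?_
    rw [sub_self, abs_zero, mul_zero, add_zero]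
    have h1 : dist (XX t s) (XX t s') ≤ 2 * dist s s' := by
      refine dist_of_coord (by positivity) fun i => ?_
      unfold XX
      rw [← sub_div, abs_div, abs_of_pos (show 0 < 1 - t by linarith),
        div_le_iff₀ (by linarith)]
      have h2 := coord_le s s' i
      have h3 : s i - dl i * t - (s' i - dl i * t) = s i - s' i := by ring
      rw [h3]
      nlinarith
    have h2 := mul_le_mul_of_nonneg_left h1 hC
    nlinarith
  · rcases le_total (1 / 2) h with hh | hh
    · rw [W_top hA hB _ _ _ ht hh, W_top hA hB _ _ _ ht hh]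
      refine (hB.lip _ _ _ _).trans ?_
      rw [sub_self, abs_zero, mul_zero, add_zero]
      have h1 : dist (fun i => s i / h) (fun i => s' i / h) ≤ 2 * dist s s' := by
        refine dist_of_coord (by positivity) fun i => ?_
        rw [← sub_div, abs_div, abs_of_pos (show 0 < h by linarith), div_le_iff₀ (by linarith)]
        have h2 := coord_le s s' i
        nlinarith
      have h2 := mul_le_mul_of_nonneg_left h1 hC
      nlinarith
    · -- the two pieces
      have hl : ∀ x y : Fin (m + 1) → ℝ, x 0 ≤ 1 / 2 → y 0 ≤ 1 / 2 →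
          dist (W A B t x h) (W A B t y h) ≤ 2 * C * dist x y := by
        intro x y hx hy
        rw [W_left hA hB _ _ _ ht hh hx, W_left hA hB _ _ _ ht hh hy]
        refine (hB.lip _ _ _ _).trans ?_
        rw [sub_self, abs_zero, mul_zero, add_zero]
        have h1 : dist (fun i => 2 * x i) (fun i => 2 * y i) ≤ 2 * dist x y := by
          have := dist_nonneg (x := x) (y := y)
          refine dist_of_coord (by positivity) fun i => ?_
          rw [← mul_sub, abs_mul, abs_of_pos (show (0 : ℝ) < 2 by norm_num)]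
          have h2 := coord_le x y i
          linarith
        have h2 := mul_le_mul_of_nonneg_left h1 hC
        linarith
      have hr : ∀ x y : Fin (m + 1) → ℝ, 1 / 2 ≤ x 0 → 1 / 2 ≤ y 0 →
          dist (W A B t x h) (W A B t y h) ≤ 2 * C * dist x y := by
        intro x y hx hy
        rw [W_right hA hB _ _ _ ht hh hx, W_right hA hB _ _ _ ht hh hy]
        refine (hA.lip _ _ _ _).trans ?_
        rw [sub_self, abs_zero, mul_zero, add_zero]
        have h1 : dist (RR x) (RR y) ≤ 2 * dist x y := by
          have := dist_nonneg (x := x) (y := y)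
          refine dist_of_coord (by positivity) fun i => ?_
          unfold RR
          have h3 : 2 * x i - dl i - (2 * y i - dl i) = 2 * (x i - y i) := by ring
          rw [h3, abs_mul, abs_of_pos (show (0 : ℝ) < 2 by norm_num)]
          have h2 := coord_le x y i
          linarith
        have h2 := mul_le_mul_of_nonneg_left h1 hC
        linarith
      -- through the wall
      have hcross : ∀ x y : Fin (m + 1) → ℝ, x 0 ≤ 1 / 2 → 1 / 2 ≤ y 0 →
          dist (W A B t x h) (W A B t y h) ≤ 4 * C * dist x y := by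
        intro x y hx hy
        have hxy := coord_le x y 0
        rw [abs_of_nonpos (by linarith)] at hxy
        set x' := Function.update x 0 (1 / 2) with hx'
        set y' := Function.update y 0 (1 / 2) with hy'
        have hx0 : x' 0 = 1 / 2 := by rw [hx', Function.update_self]
        have hy0 : y' 0 = 1 / 2 := by rw [hy', Function.update_self]
        have ex : W A B t x' h = p := by
          rw [W_left hA hB _ _ _ ht hh hx0.le]
          exact hB.out _ _ (Or.inl ⟨0, Or.inr (by rw [hx0]; norm_num)⟩)
        have ey : W A B t y' h = p := by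
          rw [W_left hA hB _ _ _ ht hh hy0.le]
          exact hB.out _ _ (Or.inl ⟨0, Or.inr (by rw [hy0]; norm_num)⟩)
        have d1 : dist x x' ≤ dist x y := by
          refine dist_of_coord dist_nonneg fun i => ?_
          by_cases hi : i = 0
          · subst hi
            rw [hx0, abs_of_nonpos (by linarith)]
            linarith
          · rw [hx', Function.update_of_ne hi, sub_self, abs_zero]
            exact dist_nonneg
        have d2 : dist y' y ≤ dist x y := by
          refine dist_of_coord dist_nonneg fun i => ?_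
          by_cases hi : i = 0
          · subst hi
            rw [hy0, abs_of_nonpos (by linarith)]
            linarith
          · rw [hy', Function.update_of_ne hi, sub_self, abs_zero]
            exact dist_nonneg
        have e1 := hl x x' hx hx0.le
        have e2 := hr y' y hy0.ge hy
        rw [ex] at e1
        rw [ey] at e2
        have e3 := dist_triangle (W A B t x h) p (W A B t y h)
        have e4 := mul_le_mul_of_nonneg_left d1 hC
        have e5 := mul_le_mul_of_nonneg_left d2 hC
        nlinarith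
      rcases le_total (s 0) (1 / 2) with h1 | h1 <;> rcases le_total (s' 0) (1 / 2) with h2 | h2
      · have := hl s s' h1 h2
        nlinarith
      · have := hcross s s' h1 h2
        nlinarith
      · have := hcross s' s h2 h1
        rw [dist_comm, dist_comm s' s] at this
        nlinarith
      · have := hr s s' h1 h2
        nlinarith

theorem W_lip_h (hC : 0 ≤ C) (hA : ConN C p A) (hB : ConN C p B) (t : ℝ) (s : Fin (m + 1) → ℝ)
    (ht0 : 0 ≤ t) (hs : InCube s) :
    LipU (6 * C) (fun h => W A B t s h) := by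
  rcases le_total t (1 / 2) with ht | ht
  · intro x y hx hxy hy
    show dist (W A B t s x) (W A B t s y) ≤ _
    rw [W_first _ _ _ ht, W_first _ _ _ ht]
    refine (hA.lip _ _ _ _).trans ?_
    rw [dist_self, mul_zero, zero_add, ← mul_sub, abs_mul,
      abs_of_nonpos (show x - y ≤ 0 by linarith), abs_of_pos (show 0 < 1 + 2 * t by linarith)]
    have : (1 + 2 * t) * -(x - y) ≤ 2 * (y - x) := by nlinarith
    have h2 := mul_le_mul_of_nonneg_left this hC
    nlinarith
  · refine LipU.glue (c := 1 / 2) (by norm_num) (by norm_num) ?_ ?_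
    · intro x y hx hxy hy
      show dist (W A B t s x) (W A B t s y) ≤ _
      rcases le_total (s 0) (1 / 2) with h0 | h0
      · rw [W_left hA hB _ _ _ ht (hxy.trans hy) h0, W_left hA hB _ _ _ ht hy h0, dist_self]
        have : 0 ≤ y - x := by linarith
        positivity
      · rw [W_right hA hB _ _ _ ht (hxy.trans hy) h0, W_right hA hB _ _ _ ht hy h0]
        refine (hA.lip _ _ _ _).trans ?_
        rw [dist_self, mul_zero, zero_add,
          abs_of_nonpos (show 2 * x + (2 * t - 1) - (2 * y + (2 * t - 1)) ≤ 0 by linarith)]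
        nlinarith
    · intro x y hx hxy hy
      show dist (W A B t s x) (W A B t s y) ≤ _
      rw [W_top hA hB _ _ _ ht hx, W_top hA hB _ _ _ ht (hx.trans hxy)]
      refine (hB.lip _ _ _ _).trans ?_
      have hx0 : 0 < x := by linarith
      have hy0 : 0 < y := by linarith
      rw [sub_self, abs_zero, mul_zero, add_zero]
      have h1 : dist (fun i => s i / x) (fun i => s i / y) ≤ 4 * (y - x) := by
        refine dist_of_coord (by linarith) fun i => ?_
        have e : s i / x - s i / y = s i * (y - x) / (x * y) := by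
          field_simp
        have hs0 := (hs i).1
        have hs1 := (hs i).2
        rw [e, abs_of_nonneg (div_nonneg (mul_nonneg hs0 (by linarith)) (by positivity)),
          div_le_iff₀ (by positivity)]
        have h1 : 1 / 4 ≤ x * y := by nlinarith
        have h2 : 0 ≤ y - x := by linarith
        nlinarith
      have h2 := mul_le_mul_of_nonneg_left h1 hC
      nlinarith

theorem W_lip_t (hC : 0 ≤ C) (hA : ConN C p A) (hB : ConN C p B) (s : Fin (m + 1) → ℝ) (h : ℝ)
    (hs : InCube s) (hh0 : 0 ≤ h) (hh1 : h ≤ 1) :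
    LipU (6 * C) (fun t => W A B t s h) := by
  refine LipU.glue (c := 1 / 2) (by norm_num) (by norm_num) ?_ ?_
  · intro x y hx hxy hy
    show dist (W A B x s h) (W A B y s h) ≤ _
    rw [W_first _ _ _ (hxy.trans hy), W_first _ _ _ hy]
    refine (hA.lip _ _ _ _).trans ?_
    have hx1 : 0 < 1 - x := by linarith
    have hy1 : 0 < 1 - y := by linarith
    have h1 : dist (XX x s) (XX y s) ≤ 4 * (y - x) := by
      refine dist_of_coord (by linarith) fun i => ?_
      unfold XX
      have e : (s i - dl i * x) / (1 - x) - (s i - dl i * y) / (1 - y) =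
          (dl i - s i) * (y - x) / ((1 - x) * (1 - y)) := by
        field_simp
        ring
      have hs0 := (hs i).1
      have hs1 := (hs i).2
      have hd0 := dl_nonneg i
      have hd1 := dl_le i
      have hab : |dl i - s i| ≤ 1 := by
        rw [abs_le]
        constructor <;> linarith
      rw [e, abs_div, abs_mul, abs_of_nonneg (show 0 ≤ y - x by linarith),
        abs_of_pos (show 0 < (1 - x) * (1 - y) by positivity), div_le_iff₀ (by positivity)]
      have h1 : 1 / 4 ≤ (1 - x) * (1 - y) := by nlinarith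
      have h2 : 0 ≤ y - x := by linarith
      have h3 : |dl i - s i| * (y - x) ≤ 1 * (y - x) := mul_le_mul_of_nonneg_right hab h2
      nlinarith
    rw [abs_of_nonpos (show (1 + 2 * x) * h - (1 + 2 * y) * h ≤ 0 by nlinarith)]
    have h2 : -((1 + 2 * x) * h - (1 + 2 * y) * h) ≤ 2 * (y - x) := by
      have : 0 ≤ (y - x) * (1 - h) := mul_nonneg (by linarith) (by linarith)
      nlinarith
    have h3 := mul_le_mul_of_nonneg_left h1 hC
    have h4 := mul_le_mul_of_nonneg_left h2 hC
    nlinarith
  · intro x y hx hxy hy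
    show dist (W A B x s h) (W A B y s h) ≤ _
    have hxy' : 0 ≤ C * (y - x) := mul_nonneg hC (by linarith)
    rcases le_total (1 / 2) h with hh | hh
    · rw [W_top hA hB _ _ _ hx hh, W_top hA hB _ _ _ (hx.trans hxy) hh]
      refine (hB.lip _ _ _ _).trans ?_
      rw [dist_self, mul_zero, zero_add,
        abs_of_nonpos (show 2 * x - 1 - (2 * y - 1) ≤ 0 by linarith)]
      nlinarith
    · rcases le_total (s 0) (1 / 2) with h0 | h0
      · rw [W_left hA hB _ _ _ hx hh h0, W_left hA hB _ _ _ (hx.trans hxy) hh h0]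
        refine (hB.lip _ _ _ _).trans ?_
        rw [dist_self, mul_zero, zero_add,
          abs_of_nonpos (show 2 * x - 1 - (2 * y - 1) ≤ 0 by linarith)]
        nlinarith
      · rw [W_right hA hB _ _ _ hx hh h0, W_right hA hB _ _ _ (hx.trans hxy) hh h0]
        refine (hA.lip _ _ _ _).trans ?_
        rw [dist_self, mul_zero, zero_add,
          abs_of_nonpos (show 2 * h + (2 * x - 1) - (2 * h + (2 * y - 1)) ≤ 0 by linarith)]
        nlinarith

end W

/-! ### the incoming contents -/

open Classical in
/-- The incoming content of a cell. -/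
noncomputable def kap (p : S) (a : ℤ → (Fin (m + 1) → ℤ) → (Fin (m + 1) → ℝ) → ℝ → S) (j : ℤ)
    (k : Fin (m + 1) → ℤ) : (Fin (m + 1) → ℝ) → ℝ → S :=
  if h0 : k = 0 then fun _ _ => p
  else if h1 : ∀ i, Even (k i) then kap p a (j + 1) (fun i => k i / 2)
  else if Odd (k 0) ∧ ∀ i, i ≠ 0 → Even (k i) then a (j + 1) (fun i => k i / 2)
  else fun _ _ => p
termination_by ∑ i, (k i).natAbs
decreasing_by
  apply Finset.sum_lt_sum
  · intro i _
    obtain ⟨c, hc⟩ := h1 i
    omega
  · obtain ⟨i, hi⟩ := Function.ne_iff.mp h0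
    have hi' : k i ≠ 0 := hi
    obtain ⟨c, hc⟩ := h1 i
    exact ⟨i, Finset.mem_univ _, by omega⟩

theorem kap_con {C : ℝ} (hC : 0 ≤ C) {p : S}
    {a : ℤ → (Fin (m + 1) → ℤ) → (Fin (m + 1) → ℝ) → ℝ → S}
    (ha : ∀ j k, ConN C p (a j k)) (j : ℤ) (k : Fin (m + 1) → ℤ) : ConN C p (kap p a j k) := by
  induction j, k using kap.induct with
  | case1 j =>
    rw [kap, dif_pos rfl]
    exact con_const hC p
  | case2 j k h0 h1 ih =>
    rw [kap, dif_neg h0, dif_pos h1]
    exact ih
  | case3 j k h0 h1 h2 =>
    rw [kap, dif_neg h0, dif_neg h1, if_pos h2]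
    exact ha _ _
  | case4 j k h0 h1 h2 =>
    rw [kap, dif_neg h0, dif_neg h1, if_neg h2]
    exact con_const hC p

theorem kap_even (p : S) (a : ℤ → (Fin (m + 1) → ℤ) → (Fin (m + 1) → ℝ) → ℝ → S) (j : ℤ)
    (k b : Fin (m + 1) → ℤ) (hb : ∀ i, b i = 0) :
    kap p a j (fun i => 2 * k i + b i) = kap p a (j + 1) k := by
  have e0 : (fun i => 2 * k i + b i) = fun i => 2 * k i := by
    funext i
    rw [hb i, add_zero]
  rw [e0]
  by_cases hk : k = 0
  · subst hk
    have e1 : (fun i => 2 * (0 : Fin (m + 1) → ℤ) i) = 0 := by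
      funext i
      simp
    rw [e1, kap, dif_pos rfl, kap, dif_pos rfl]
  · have h0 : (fun i => 2 * k i) ≠ 0 := by
      intro h
      apply hk
      funext i
      have := congrFun h i
      simp only [Pi.zero_apply] at this ⊢
      omega
    conv_lhs => rw [kap]
    rw [dif_neg h0, dif_pos (fun i => even_two_mul (k i))]
    congr 1
    funext i
    exact Int.mul_ediv_cancel_left _ (by norm_num)

theorem kap_e0 (p : S) (a : ℤ → (Fin (m + 1) → ℤ) → (Fin (m + 1) → ℝ) → ℝ → S) (j : ℤ)
    (k b : Fin (m + 1) → ℤ) (h1 : b 0 = 1) (hb : ∀ i, i ≠ 0 → b i = 0) :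
    kap p a j (fun i => 2 * k i + b i) = a (j + 1) k := by
  have e0 : (fun i => 2 * k i + b i) ≠ 0 := by
    intro h
    have := congrFun h 0
    simp only [Pi.zero_apply, h1] at this
    omega
  have e1 : ¬ ∀ i, Even (2 * k i + b i) := by
    intro h
    obtain ⟨c, hc⟩ := h 0
    rw [h1] at hc
    omega
  have e2 : Odd (2 * k 0 + b 0) ∧ ∀ i, i ≠ 0 → Even (2 * k i + b i) := by
    refine ⟨⟨k 0, by rw [h1]⟩, fun i hi => ?_⟩
    rw [hb i hi, add_zero]
    exact even_two_mul _
  rw [kap, dif_neg e0, dif_neg e1, if_pos e2]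
  congr 1
  funext i
  by_cases hi : i = 0
  · subst hi
    rw [h1]
    omega
  · rw [hb i hi]
    omega

theorem kap_other (p : S) (a : ℤ → (Fin (m + 1) → ℤ) → (Fin (m + 1) → ℝ) → ℝ → S) (j : ℤ)
    (k b : Fin (m + 1) → ℤ) (i : Fin (m + 1)) (hi : i ≠ 0) (h1 : b i = 1) :
    kap p a j (fun i => 2 * k i + b i) = fun _ _ => p := by
  have e0 : (fun i => 2 * k i + b i) ≠ 0 := by
    intro h
    have := congrFun h i
    simp only [Pi.zero_apply, h1] at this
    omega
  have e1 : ¬ ∀ i, Even (2 * k i + b i) := by
    intro h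
    obtain ⟨c, hc⟩ := h i
    rw [h1] at hc
    omega
  have e2 : ¬ (Odd (2 * k 0 + b 0) ∧ ∀ i, i ≠ 0 → Even (2 * k i + b i)) := by
    rintro ⟨-, h⟩
    obtain ⟨c, hc⟩ := h i hi
    rw [h1] at hc
    omega
  rw [kap, dif_neg e0, dif_neg e1, if_neg e2]

/-- Task Stage3N. -/
theorem taskStage3N : TaskStage3N := by
  intro S _ p m C hC
  refine ⟨6 * C, by positivity, ?_⟩
  intro G hG hb hv
  let a : ℤ → (Fin (m + 1) → ℤ) → (Fin (m + 1) → ℝ) → ℝ → S :=
    fun j k x y => G j k (clipv x) (clip y)
  have ha : ∀ j k, ConN C p (a j k) := fun j k =>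
    con_clip hC (fun y => hG.ls j k y) (fun x => hG.lh j k x) (fun x => hb j k x)
      (fun x y h => hv j k x y h)
  let κ : ℤ → (Fin (m + 1) → ℤ) → (Fin (m + 1) → ℝ) → ℝ → S := kap p a
  have hκ : ∀ j k, ConN C p (κ j k) := kap_con hC ha
  have h6 : 0 ≤ 6 * C := by positivity
  refine ⟨fun t j k s h => W (a j k) (κ j k) (clip t) (clipv s) (clip h), ?_, ?_, ?_, ?_⟩
  · intro t
    refine ⟨?_, ?_, ?_, ?_⟩
    · intro j k h x y
      exact (W_lip_s hC (ha j k) (hκ j k) (clip t) (clip h) (clipv x) (clipv y)).trans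
        (mul_le_mul_of_nonneg_left (dist_clipv x y) h6)
    · intro j k s
      exact (W_lip_h hC (ha j k) (hκ j k) (clip t) (clipv s) (clip_nonneg _)
        (clipv_mem s)).lip1 h6
    · intro j k s h i hs hi
      show W (a j k) (κ j k) (clip t) (clipv s) (clip h) =
        W (a j (Function.update k i (k i + 1))) (κ j (Function.update k i (k i + 1))) (clip t)
          (clipv (Function.update s i 0)) (clip h)
      rw [W_bd (ha _ _) (hκ _ _) _ _ _ (clip_nonneg _) (clip_le_one _) ⟨i, Or.inr ?_⟩,
        W_bd (ha _ _) (hκ _ _) _ _ _ (clip_nonneg _) (clip_le_one _) ⟨i, Or.inl ?_⟩]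
      · show clip (Function.update s i 0 i) = 0
        rw [Function.update_self]
        exact clip_of_le le_rfl
      · show clip (s i) = 1
        exact clip_of_ge hi.ge
    · intro j k b hbb s hs
      show W (a j (fun i => 2 * k i + b i)) (κ j (fun i => 2 * k i + b i)) (clip t) (clipv s)
        (clip 1) = W (a (j + 1) k) (κ (j + 1) k) (clip t) (clipv (fun i => (b i + s i) / 2))
          (clip 0)
      have hbr : ∀ i, (0 : ℝ) ≤ b i ∧ (b i : ℝ) ≤ 1 := by
        intro i
        rcases hbb i with h | h <;> rw [h] <;> norm_num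
      have hcube : InCube (fun i => ((b i : ℝ) + s i) / 2) := by
        intro i
        have h1 := hbr i
        have h2 := hs i
        constructor
        · have : 0 ≤ (b i : ℝ) + s i := by linarith [h1.1, h2.1]
          positivity
        · linarith [h1.2, h2.2]
      rw [clip_of_ge le_rfl, clip_of_le le_rfl, clipv_of_mem hs, clipv_of_mem hcube]
      have ht0 := clip_nonneg t
      rcases le_total (clip t) (1 / 2) with ht | ht
      · rw [W_first _ _ _ ht, W_first _ _ _ ht,
          (ha _ _).out _ _ (Or.inr (Or.inr (by linarith))),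
          (ha _ _).out _ _ (Or.inr (Or.inl (by linarith)))]
      · rw [W_top (ha _ _) (hκ _ _) _ _ _ ht (by norm_num)]
        by_cases hex : ∃ i, i ≠ 0 ∧ b i = 1
        · obtain ⟨i, hi, hbi⟩ := hex
          have e1 : κ j (fun i => 2 * k i + b i) = fun _ _ => p := kap_other p a j k b i hi hbi
          rw [e1]
          rcases le_total ((((b 0 : ℝ) + s 0) / 2)) (1 / 2) with h0 | h0
          · rw [W_left (ha _ _) (hκ _ _) _ _ _ ht (by norm_num) h0]
            refine ((hκ _ _).out _ _ (Or.inl ⟨i, Or.inr ?_⟩)).symm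
            simp only [hbi]
            push_cast
            linarith [(hs i).1]
          · rw [W_right (ha _ _) (hκ _ _) _ _ _ ht (by norm_num) h0]
            refine ((ha _ _).out _ _ (Or.inl ⟨i, Or.inr ?_⟩)).symm
            simp only [RR, hbi, dl, if_neg hi]
            push_cast
            linarith [(hs i).1]
        · push Not at hex
          have hb0 : ∀ i, i ≠ 0 → b i = 0 := fun i hi => (hbb i).resolve_right (hex i hi)
          rcases hbb 0 with h0 | h0
          · have e1 : κ j (fun i => 2 * k i + b i) = κ (j + 1) k := by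
              apply kap_even
              intro i
              by_cases hi : i = 0
              · rw [hi]; exact h0
              · exact hb0 i hi
            rw [e1, W_left (ha _ _) (hκ _ _) _ _ _ ht (by norm_num) ?_]
            · congr 1
              funext i
              by_cases hi : i = 0
              · rw [hi, h0]; push_cast; ring
              · rw [hb0 i hi]; push_cast; ring
            · simp only [h0]
              push_cast
              linarith [(hs 0).2]
          · have e1 : κ j (fun i => 2 * k i + b i) = a (j + 1) k := kap_e0 p a j k b h0 hb0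
            rw [e1, W_right (ha _ _) (hκ _ _) _ _ _ ht (by norm_num) ?_]
            · congr 1
              · funext i
                by_cases hi : i = 0
                · rw [hi]
                  simp only [RR, h0, dl_zero]
                  push_cast
                  ring
                · simp only [RR, hb0 i hi, dl, if_neg hi]
                  push_cast
                  ring
              · ring
            · simp only [h0]
              push_cast
              linarith [(hs 0).1]
  · intro j k s h
    exact (W_lip_t hC (ha j k) (hκ j k) (clipv s) (clip h) (clipv_mem s)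
      (clip_nonneg _) (clip_le_one _)).lip1 h6
  · intro j k s h hs hh0 hh1
    show W (a j k) (κ j k) (clip 0) (clipv s) (clip h) = G j k s h
    rw [clip_of_le le_rfl, clipv_of_mem hs, clip_of_mem hh0 hh1, W_first _ _ _ (by norm_num)]
    show G j k (clipv _) (clip _) = G j k s h
    have e1 : XX 0 s = s := by
      funext i
      simp [XX]
    have e2 : (1 + 2 * 0) * h = h := by ring
    rw [e1, e2, clipv_of_mem hs, clip_of_mem hh0 hh1]
  · intro j k s h hs hh0 hh1
    show W (a j k) (κ j k) (clip 1) (clipv s) (clip h) = p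
    rw [clip_of_ge le_rfl, clipv_of_mem hs, clip_of_mem hh0 hh1]
    rcases le_total (1 / 2) h with hh | hh
    · rw [W_top (ha _ _) (hκ _ _) _ _ _ (by norm_num) hh]
      exact (hκ _ _).out _ _ (Or.inr (Or.inr (by norm_num)))
    · rcases le_total (s 0) (1 / 2) with h0 | h0
      · rw [W_left (ha _ _) (hκ _ _) _ _ _ (by norm_num) hh h0]
        exact (hκ _ _).out _ _ (Or.inr (Or.inr (by norm_num)))
      · rw [W_right (ha _ _) (hκ _ _) _ _ _ (by norm_num) hh h0]
        exact (ha _ _).out _ _ (Or.inr (Or.inr (by linarith)))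

end Pool.Agent.H676R4.LN3
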