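import Pool.Agent.H294ZP.Stmts

/-!
Task TF of the project H294-ZP.
-/

open UpperHalfPlane ModularForm Function FixedDetMatrices Matrix MatrixGroups

namespace H294ZP.TF676

/-- the point `(a τ + b) / d` -/
noncomputable def hk (a d : ℕ) (b : ℤ) (ha : 0 < a) (hd : 0 < d) (τ : ℍ) : ℍ :=
  UpperHalfPlane.mk (((a : ℂ) * τ + b) / d) (by
    have h1 : (((a : ℂ) * τ + b) / d).im = a * τ.im / d := by
      rw [Complex.div_natCast_im]
      simp
    rw [h1]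
    have := τ.im_pos
    have ha' : (0 : ℝ) < a := by exact_mod_cast ha
    have hd' : (0 : ℝ) < d := by exact_mod_cast hd
    positivity)

theorem hk_mul (a d : ℕ) (b : ℤ) (ha : 0 < a) (hd : 0 < d) (τ : ℍ) :
    (hk a d b ha hd τ : ℂ) * d = a * τ + b := by
  have hd' : (d : ℂ) ≠ 0 := by exact_mod_cast hd.ne'
  show (((a : ℂ) * τ + b) / d) * d = _
  rw [div_mul_cancel₀ _ hd']

/-- `reduce A` is in the orbit of `A` -/
theorem reduce_orbit {m : ℤ} (A : FixedDetMatrix (Fin 2) ℤ m) : ∃ g : SL(2, ℤ), reduce A = g • A := by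
  induction A using reduce_rec with
  | step A h1 h2 =>
    obtain ⟨g, hg⟩ := h2
    rw [reduce_reduceStep h1] at hg
    refine ⟨g * (ModularGroup.S * (ModularGroup.T ^ (-(A.1 0 0 / A.1 1 0)))), ?_⟩
    rw [hg, reduceStep, mul_smul, mul_smul]
  | base A h =>
    by_cases h1 : 0 < A.1 0 0
    · exact ⟨_, reduce_of_pos h h1⟩
    · refine ⟨(ModularGroup.T ^ (-(-A.1 0 1 / -A.1 1 1))) * (ModularGroup.S * ModularGroup.S), ?_⟩
      rw [reduce_of_not_pos h h1, mul_smul, mul_smul]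

theorem smul_entries {m : ℤ} (g : SL(2, ℤ)) (A : FixedDetMatrix (Fin 2) ℤ m) (i j : Fin 2) :
    (g • A).1 i j = g.1 i 0 * A.1 0 j + g.1 i 1 * A.1 1 j := by
  rw [smul_coe]
  simp [Matrix.mul_apply, Fin.sum_univ_two]

theorem det_eq {m : ℤ} (A : FixedDetMatrix (Fin 2) ℤ m) : A.1 0 0 * A.1 1 1 - A.1 0 1 * A.1 1 0 = m := by
  have := A.2
  rwa [Matrix.det_fin_two] at this

theorem sl_det (g : SL(2, ℤ)) : g.1 0 0 * g.1 1 1 - g.1 0 1 * g.1 1 0 = 1 := by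
  have := g.2
  rwa [Matrix.det_fin_two] at this

/-- representatives are unique -/
theorem reps_unique {m : ℤ} (hm : 0 < m) {A B : FixedDetMatrix (Fin 2) ℤ m} (hA : A ∈ reps m)
    (hB : B ∈ reps m) (g : SL(2, ℤ)) (h : B = g • A) : A = B := by
  obtain ⟨a1, a2, a3, a4⟩ := hA
  obtain ⟨b1, b2, b3, b4⟩ := hB
  have dA := det_eq A
  have dB := det_eq B
  have dg := sl_det g
  have e00 := smul_entries g A 0 0
  have e01 := smul_entries g A 0 1
  have e10 := smul_entries g A 1 0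
  have e11 := smul_entries g A 1 1
  rw [← h] at e00 e01 e10 e11
  rw [a1] at e00 e10 dA
  rw [b1] at e10 dB
  simp only [mul_zero, add_zero, sub_zero] at e00 e10 dA dB
  have z0 : g.1 1 0 = 0 := by
    rcases mul_eq_zero.1 e10.symm with h | h
    · exact h
    · omega
  rw [z0] at dg e11
  simp only [mul_zero, sub_zero, zero_mul, zero_add] at dg e11
  have x1 : g.1 0 0 = 1 := by
    rcases Int.mul_eq_one_iff_eq_one_or_neg_one.1 dg with ⟨h1, _⟩ | ⟨h1, _⟩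
    · exact h1
    · rw [h1] at e00
      omega
  rw [x1] at dg e00 e01
  simp only [one_mul] at dg e00 e01
  rw [dg] at e11
  simp only [one_mul] at e11
  have dpos : 0 < A.1 1 1 := by
    by_contra hn
    push Not at hn
    have : A.1 0 0 * A.1 1 1 ≤ 0 := mul_nonpos_of_nonneg_of_nonpos a2.le hn
    omega
  rw [abs_of_nonneg a3, abs_of_pos dpos] at a4
  rw [e11, abs_of_nonneg b3, abs_of_pos dpos] at b4
  have y0 : g.1 0 1 = 0 := by
    by_contra hne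
    rcases lt_or_gt_of_ne hne with h1 | h1
    · have : g.1 0 1 * A.1 1 1 ≤ -1 * A.1 1 1 := mul_le_mul_of_nonneg_right (by omega) dpos.le
      omega
    · have : 1 * A.1 1 1 ≤ g.1 0 1 * A.1 1 1 := mul_le_mul_of_nonneg_right (by omega) dpos.le
      omega
  rw [y0] at e01
  simp only [zero_mul, add_zero] at e01
  ext i j
  fin_cases i <;> fin_cases j
  · exact e00.symm
  · exact e01.symm
  · exact a1.trans b1.symm
  · exact e11.symm

/-- right multiplication -/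
def rmul {m : ℤ} (A : FixedDetMatrix (Fin 2) ℤ m) (g : SL(2, ℤ)) : FixedDetMatrix (Fin 2) ℤ m :=
  ⟨A.1 * g.1, by rw [Matrix.det_mul, A.2, g.2, mul_one]⟩

theorem smul_rmul {m : ℤ} (g g' : SL(2, ℤ)) (A : FixedDetMatrix (Fin 2) ℤ m) :
    g • rmul A g' = rmul (g • A) g' := by
  apply FixedDetMatrices.ext'
  rw [smul_coe]
  show g.1 * (A.1 * g'.1) = (g • A).1 * g'.1
  rw [smul_coe, mul_assoc]

theorem rmul_inj {m : ℤ} (g : SL(2, ℤ)) {A B : FixedDetMatrix (Fin 2) ℤ m}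
    (h : rmul A g = rmul B g) : A = B := by
  apply FixedDetMatrices.ext'
  have h1 : A.1 * g.1 = B.1 * g.1 := congrArg Subtype.val h
  have h2 : A.1 * g.1 * (g⁻¹ : SL(2, ℤ)).1 = B.1 * g.1 * (g⁻¹ : SL(2, ℤ)).1 := by rw [h1]
  have h3 : g.1 * (g⁻¹ : SL(2, ℤ)).1 = 1 := by
    have := congrArg Subtype.val (mul_inv_cancel g)
    exact this
  rw [mul_assoc, mul_assoc, h3, mul_one, mul_one] at h2
  exact h2

section
variable {N : ℕ} (hN : 0 < N)

theorem reps_pos (hN : 0 < N) (k : reps (N : ℤ)) :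
    0 < (k.1.1 0 0).toNat ∧ 0 < (k.1.1 1 1).toNat ∧
      (k.1.1 0 0).toNat * (k.1.1 1 1).toNat = N ∧
      (((k.1.1 0 0).toNat : ℤ) = k.1.1 0 0) ∧ (((k.1.1 1 1).toNat : ℤ) = k.1.1 1 1) ∧
      k.1.1 1 0 = 0 := by
  obtain ⟨a1, a2, a3, a4⟩ := k.2
  have dA := det_eq k.1
  rw [a1, mul_zero, sub_zero] at dA
  have hN' : (0 : ℤ) < N := by exact_mod_cast hN
  have dpos : 0 < k.1.1 1 1 := by
    by_contra hn
    push Not at hn
    have : k.1.1 0 0 * k.1.1 1 1 ≤ 0 := mul_nonpos_of_nonneg_of_nonpos a2.le hn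
    omega
  have e1 : (((k.1.1 0 0).toNat : ℤ) = k.1.1 0 0) := Int.toNat_of_nonneg a2.le
  have e2 : (((k.1.1 1 1).toNat : ℤ) = k.1.1 1 1) := Int.toNat_of_nonneg dpos.le
  refine ⟨by omega, by omega, ?_, e1, e2, a1⟩
  have : (((k.1.1 0 0).toNat * (k.1.1 1 1).toNat : ℕ) : ℤ) = N := by
    rw [Nat.cast_mul, e1, e2, dA]
  exact_mod_cast this

/-- the function attached to a representative -/
noncomputable def hf (hN : 0 < N) (k : reps (N : ℤ)) (τ : ℍ) : ℍ :=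
  hk (k.1.1 0 0).toNat (k.1.1 1 1).toNat (k.1.1 0 1) (reps_pos hN k).1 (reps_pos hN k).2.1 τ

theorem hf_mul (hN : 0 < N) (k : reps (N : ℤ)) (τ : ℍ) :
    (hf hN k τ : ℂ) * (k.1.1 1 1 : ℤ) = (k.1.1 0 0 : ℤ) * τ + (k.1.1 0 1 : ℤ) := by
  have h := hk_mul (k.1.1 0 0).toNat (k.1.1 1 1).toNat (k.1.1 0 1) (reps_pos hN k).1
    (reps_pos hN k).2.1 τ
  have e1 : (((k.1.1 0 0).toNat : ℕ) : ℂ) = ((k.1.1 0 0 : ℤ) : ℂ) := by
    rw [← Int.cast_natCast, (reps_pos hN k).2.2.2.1]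
  have e2 : (((k.1.1 1 1).toNat : ℕ) : ℂ) = ((k.1.1 1 1 : ℤ) : ℂ) := by
    rw [← Int.cast_natCast, (reps_pos hN k).2.2.2.2.1]
  rw [e1, e2] at h
  exact h

/-- the representative of the class of `A` -/
noncomputable def red (hN : 0 < N) (A : FixedDetMatrix (Fin 2) ℤ (N : ℤ)) : reps (N : ℤ) :=
  ⟨reduce A, reduce_mem_reps (by exact_mod_cast hN.ne') A⟩

theorem key (hN : 0 < N) (hj : Inv jj) (A : FixedDetMatrix (Fin 2) ℤ (N : ℤ)) (τ w : ℍ)
    (hw : (w : ℂ) * ((A.1 1 0 : ℤ) * τ + (A.1 1 1 : ℤ)) = (A.1 0 0 : ℤ) * τ + (A.1 0 1 : ℤ)) :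
    jj w = jj (hf hN (red hN A) τ) := by
  obtain ⟨g, hg⟩ := reduce_orbit A
  have hv := hf_mul hN (red hN A) τ
  have h10 : (red hN A).1.1 1 0 = 0 := (reps_pos hN (red hN A)).2.2.2.2.2
  have hR : (red hN A).1 = g • A := hg
  set v := hf hN (red hN A) τ with hvdef
  symm
  apply hj (g.1 0 0) (g.1 0 1) (g.1 1 0) (g.1 1 1) (sl_det g)
  have e00 := smul_entries g A 0 0
  have e01 := smul_entries g A 0 1
  have e10 := smul_entries g A 1 0
  have e11 := smul_entries g A 1 1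
  rw [hR] at hv h10
  rw [e00, e01, e11] at hv
  rw [e10] at h10
  have h10' : ((g.1 1 0 : ℤ) : ℂ) * (A.1 0 0 : ℤ) + (g.1 1 1 : ℤ) * (A.1 1 0 : ℤ) = 0 := by
    exact_mod_cast h10
  push_cast at hv
  set m : ℂ := (A.1 1 0 : ℤ) * τ + (A.1 1 1 : ℤ) with hm
  set n : ℂ := (A.1 0 0 : ℤ) * τ + (A.1 0 1 : ℤ) with hn
  have hdet : ((A.1 0 0 : ℤ) : ℂ) * (A.1 1 1 : ℤ) - (A.1 0 1 : ℤ) * (A.1 1 0 : ℤ) = N := by
    exact_mod_cast det_eq A
  have hm0 : m ≠ 0 := by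
    intro h0
    rw [h0, mul_zero] at hw
    have h2 : ((A.1 0 0 : ℤ) : ℂ) * m - (A.1 1 0 : ℤ) * n = N := by
      rw [hm, hn, ← hdet]; ring
    rw [h0, ← hw] at h2
    simp only [mul_zero, sub_zero] at h2
    exact hN.ne' (by exact_mod_cast h2.symm)
  apply mul_right_cancel₀ hm0
  have h3 : (v : ℂ) * ((g.1 1 0 : ℤ) * n + (g.1 1 1 : ℤ) * m) =
      (g.1 0 0 : ℤ) * n + (g.1 0 1 : ℤ) * m := by
    have h4 : ((g.1 1 0 : ℤ) : ℂ) * n + (g.1 1 1 : ℤ) * m =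
        ((g.1 1 0 : ℤ) : ℂ) * (A.1 0 1 : ℤ) + (g.1 1 1 : ℤ) * (A.1 1 1 : ℤ) := by
      rw [hm, hn]
      linear_combination (τ : ℂ) * h10'
    rw [h4, hv, hm, hn]
    ring
  calc (v : ℂ) * ((g.1 1 0 : ℤ) * w + (g.1 1 1 : ℤ)) * m
      = (v : ℂ) * ((g.1 1 0 : ℤ) * (w * m) + (g.1 1 1 : ℤ) * m) := by ring
    _ = (g.1 0 0 : ℤ) * (w * m) + (g.1 0 1 : ℤ) * m := by rw [hw, h3]
    _ = ((g.1 0 0 : ℤ) * w + (g.1 0 1 : ℤ)) * m := by ring

end

theorem tf : TaskTF := by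
  intro hj N hN
  classical
  refine ⟨reps (N : ℤ), inferInstance, inferInstance, fun k => (k.1.1 0 0).toNat,
    fun k => (k.1.1 1 1).toNat, fun k => k.1.1 0 1, hf hN, ?_, ?_, ?_, ?_⟩
  · intro k
    exact ⟨(reps_pos hN k).1, (reps_pos hN k).2.1, (reps_pos hN k).2.2.1⟩
  · intro k τ
    exact hk_mul _ _ _ (reps_pos hN k).1 (reps_pos hN k).2.1 τ
  · intro p q r s hdet τ w hw
    set γ : SL(2, ℤ) := ⟨!![p, q; r, s], by rw [Matrix.det_fin_two_of]; exact hdet⟩ with hγ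
    have hinj : Function.Injective (fun k : reps (N : ℤ) => red hN (rmul k.1 γ)) := by
      intro k k' hkk
      simp only at hkk
      have h1 : reduce (rmul k.1 γ) = reduce (rmul k'.1 γ) := congrArg Subtype.val hkk
      obtain ⟨g, hg⟩ := reduce_orbit (rmul k.1 γ)
      obtain ⟨g', hg'⟩ := reduce_orbit (rmul k'.1 γ)
      rw [hg, hg', smul_rmul, smul_rmul] at h1
      have h2 := rmul_inj γ h1
      have h3 : k'.1 = (g'⁻¹ * g) • k.1 := by
        rw [mul_smul, h2, inv_smul_smul]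
      exact Subtype.ext (reps_unique (by exact_mod_cast hN) k.2 k'.2 _ h3)
    refine ⟨Equiv.ofBijective _ (Finite.injective_iff_bijective.1 hinj), fun k => ?_⟩
    show jj (hf hN k w) = jj (hf hN (red hN (rmul k.1 γ)) τ)
    apply key hN hj
    have h1 := hf_mul hN k w
    have h10 : k.1.1 1 0 = 0 := (reps_pos hN k).2.2.2.2.2
    have e10 : (rmul k.1 γ).1 1 0 = k.1.1 1 1 * r := by
      show (k.1.1 * γ.1) 1 0 = _
      simp [Matrix.mul_apply, Fin.sum_univ_two, hγ, h10]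
    have e11 : (rmul k.1 γ).1 1 1 = k.1.1 1 1 * s := by
      show (k.1.1 * γ.1) 1 1 = _
      simp [Matrix.mul_apply, Fin.sum_univ_two, hγ, h10]
    have e00 : (rmul k.1 γ).1 0 0 = k.1.1 0 0 * p + k.1.1 0 1 * r := by
      show (k.1.1 * γ.1) 0 0 = _
      simp [Matrix.mul_apply, Fin.sum_univ_two, hγ]
    have e01 : (rmul k.1 γ).1 0 1 = k.1.1 0 0 * q + k.1.1 0 1 * s := by
      show (k.1.1 * γ.1) 0 1 = _
      simp [Matrix.mul_apply, Fin.sum_univ_two, hγ]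
    rw [e10, e11, e00, e01]
    push_cast
    linear_combination ((r : ℂ) * τ + s) * h1 + (k.1.1 0 0 : ℂ) * hw
  · intro p q r s hdet τ w hw
    set A : FixedDetMatrix (Fin 2) ℤ (N : ℤ) :=
      ⟨!![p, q; r, s], by rw [Matrix.det_fin_two_of]; exact hdet⟩ with hA
    refine ⟨red hN A, key hN hj A τ w ?_⟩
    simpa [hA] using hw

end H294ZP.TF676
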