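import Pool.Agent.H329R3.PM.Stmts

/-! Task `TaskSel` of the project H329-PME: the selection lemma.  (helper676) -/

open MeasureTheory Set Filter Topology

namespace Pool.Agent.H676R4.PM

open Pool.Agent.H329R3.PM

theorem integrableOn_of_bdd {g : ℝ → ℝ} (hg : Measurable g) (h0 : ∀ y, 0 ≤ g y) {B : ℝ}
    (hB : ∀ y, g y ≤ B) (p q : ℝ) : IntegrableOn g (Ioc p q) := by
  refine Measure.integrableOn_of_bounded (M := B) ?_ hg.aestronglyMeasurable ?_
  · exact measure_Ioc_lt_top.ne
  · refine Filter.Eventually.of_forall fun y => ?_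
    rw [Real.norm_eq_abs, abs_of_nonneg (h0 y)]
    exact hB y

theorem exists_cut {f g : ℝ → ℝ} (hf : Measurable f) (hg : Measurable g) (hf0 : ∀ y, 0 ≤ f y)
    (hfg : ∀ y, f y ≤ g y) {B : ℝ} (hB : ∀ y, g y ≤ B) {p q : ℝ} (hpq : p ≤ q) :
    ∃ c ∈ Icc p q, ∫ y in Ioc p c, g y = ∫ y in Ioc p q, f y := by
  have hg0 : ∀ y, 0 ≤ g y := fun y => (hf0 y).trans (hfg y)
  have hfB : ∀ y, f y ≤ B := fun y => (hfg y).trans (hB y)
  have hgi : ∀ u v : ℝ, IntegrableOn g (Ioc u v) := fun u v => integrableOn_of_bdd hg hg0 hB u v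
  have hfi : IntegrableOn f (Ioc p q) := integrableOn_of_bdd hf hf0 hfB p q
  have hii : ∀ u v : ℝ, IntervalIntegrable g volume u v := fun u v => ⟨hgi u v, hgi v u⟩
  have hcont : Continuous fun c => ∫ y in p..c, g y :=
    intervalIntegral.continuous_primitive hii p
  have hmem : (∫ y in Ioc p q, f y) ∈ Icc (∫ y in p..p, g y) (∫ y in p..q, g y) := by
    constructor
    · rw [intervalIntegral.integral_same]
      exact integral_nonneg hf0
    · rw [intervalIntegral.integral_of_le hpq]
      exact setIntegral_mono hfi (hgi p q) hfg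
  obtain ⟨c, hc, hceq⟩ := intermediate_value_Icc hpq hcont.continuousOn hmem
  refine ⟨c, hc, ?_⟩
  rw [← hceq]
  exact (intervalIntegral.integral_of_le hc.1).symm

theorem taskSel : TaskSel := by
  intro a n ha hn f g hf hg hf0 hfg ⟨B, hB⟩
  have hn' : (0 : ℝ) < n := by exact_mod_cast hn
  have h1a : 0 < 1 - a := by linarith [ha.2]
  have hmono : ∀ u v : ℝ, u ≤ v → a + (1 - a) * u / n ≤ a + (1 - a) * v / n := by
    intro u v huv
    have : (1 - a) * u / n ≤ (1 - a) * v / n := by gcongr
    linarith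
  have hle : ∀ i : ℕ, a + (1 - a) * i / n ≤ a + (1 - a) * (i + 1) / n :=
    fun i => hmono _ _ (by linarith)
  choose c hc hceq using fun i : ℕ => exists_cut hf hg hf0 hfg hB (hle i)
  refine ⟨⋃ i : ℕ, ⋃ _ : i < n, Ioc (a + (1 - a) * i / n) (c i), ?_, ?_, ?_⟩
  · exact MeasurableSet.iUnion fun i => MeasurableSet.iUnion fun _ => measurableSet_Ioc
  · intro y hy
    simp only [mem_iUnion, exists_prop] at hy
    obtain ⟨i, hi, hy1, hy2⟩ := hy
    constructor
    · have := hmono 0 i (Nat.cast_nonneg i)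
      simp only [mul_zero, zero_div, add_zero] at this
      linarith
    · have hin : ((i : ℝ) + 1) ≤ n := by exact_mod_cast hi
      have h2 := hmono _ _ hin
      rw [mul_div_assoc (1 - a) (n : ℝ) n, div_self hn'.ne'] at h2
      have h3 := (hc i).2
      linarith
  · intro i hi
    have hS : MeasurableSet (⋃ i : ℕ, ⋃ _ : i < n, Ioc (a + (1 - a) * i / n) (c i)) :=
      MeasurableSet.iUnion fun i => MeasurableSet.iUnion fun _ => measurableSet_Ioc
    rw [setIntegral_indicator hS]
    rw [← hceq i]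
    congr 2
    ext y
    simp only [mem_inter_iff, mem_iUnion, exists_prop]
    constructor
    · rintro ⟨⟨hy1, hy2⟩, j, hj, hy3, hy4⟩
      rcases lt_trichotomy i j with hij | hij | hij
      · exfalso
        have hij' : ((i : ℝ) + 1) ≤ j := by exact_mod_cast hij
        have := hmono _ _ hij'
        linarith
      · subst hij
        exact ⟨hy3, hy4⟩
      · exfalso
        have hij' : ((j : ℝ) + 1) ≤ i := by exact_mod_cast hij
        have h4 := hmono _ _ hij'
        have h5 := (hc j).2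
        linarith
    · rintro ⟨hy1, hy2⟩
      exact ⟨⟨hy1, hy2.trans (hc i).2⟩, i, hi, hy1, hy2⟩

end Pool.Agent.H676R4.PM
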