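import Pool.Agent.H35R3.Al.StmtsB

/-!
Project ALPHA, Task C: comparison of the torus and the plane.
-/

set_option autoImplicit false

namespace H676A

open H974 H12S H973N H35A Finset

/-- A path which starts in a rectangle stays inside or reaches the boundary inside. -/
theorem exitOr {G : Set Edg} {a b c d : ℤ} {u v : Vtx} (hu : inR a b c d u) (h : Reach G u v) :
    (∃ w ∈ bdR a b c d, Reach (G ∩ ↑(RE a b c d)) u w) ∨
      (inR a b c d v ∧ Reach (G ∩ ↑(RE a b c d)) u v) := by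
  induction h with
  | refl => exact Or.inr ⟨hu, Reach.refl _ _⟩
  | @tail w w' _ hs ih =>
    rcases ih with ih | ⟨ih1, ih2⟩
    · exact Or.inl ih
    · by_cases hb : w.1 = a ∨ w.1 = b ∨ w.2 = c ∨ w.2 = d
      · exact Or.inl ⟨w, ⟨ih1, hb⟩, ih2⟩
      · right
        obtain ⟨⟨x0, y0, bo⟩, heG, hcase⟩ := hs
        unfold inR at ih1
        have hmem : ((x0, y0, bo) : Edg) ∈ RE a b c d := by
          cases bo
          · simp only [src_mk, tgt_false] at hcase
            rw [mem_RE_false]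
            rcases hcase with ⟨h3, h4⟩ | ⟨h3, h4⟩
            · rw [← h3] at ih1 hb; simp only at ih1 hb; omega
            · rw [← h4] at ih1 hb; simp only at ih1 hb; omega
          · simp only [src_mk, tgt_true] at hcase
            rw [mem_RE_true]
            rcases hcase with ⟨h3, h4⟩ | ⟨h3, h4⟩
            · rw [← h3] at ih1 hb; simp only at ih1 hb; omega
            · rw [← h4] at ih1 hb; simp only at ih1 hb; omega
        refine ⟨?_, ih2.trans (Adj.reach ⟨_, ⟨heG, hmem⟩, hcase⟩)⟩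
        unfold inR
        cases bo
        · simp only [src_mk, tgt_false] at hcase
          rcases hcase with ⟨h3, h4⟩ | ⟨h3, h4⟩
          · rw [← h3] at ih1 hb; rw [← h4]; simp only at ih1 hb ⊢; omega
          · rw [← h4] at ih1 hb; rw [← h3]; simp only at ih1 hb ⊢; omega
        · simp only [src_mk, tgt_true] at hcase
          rcases hcase with ⟨h3, h4⟩ | ⟨h3, h4⟩
          · rw [← h3] at ih1 hb; rw [← h4]; simp only at ih1 hb ⊢; omega
          · rw [← h4] at ih1 hb; rw [← h3]; simp only at ih1 hb ⊢; omega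

/-- The local connection event. -/
def LCo (e : Edg) (P : Finset Edg) : Prop := Reach (↑(P.erase e) : Set Edg) (src e) (tgt e)

theorem LCo_mono {e : Edg} {P P' : Finset Edg} (h : P ⊆ P') (hP : LCo e P) : LCo e P' :=
  hP.mono (by exact_mod_cast Finset.erase_subset_erase _ h)

/-- Translation invariance. -/
theorem LCo_trl (x y : ℤ) (b : Bool) (F : Finset Edg) :
    LCo (x, y, b) ((trl x y).mp F) ↔ LCo (0, 0, b) F := by
  unfold LCo
  have e1 : (↑(((trl x y).mp F).erase (x, y, b)) : Set Edg) =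
      (trl x y).φ '' ↑(F.erase (0, 0, b)) := by
    rw [← LSym.coe_mp]
    congr 1
    ext ⟨x1, y1, b1⟩
    simp only [Finset.mem_erase, LSym.mem_mp, trl_φs, ne_eq, Prod.mk.injEq]
    constructor
    · rintro ⟨h1, h2⟩
      exact ⟨fun h => h1 ⟨by omega, by omega, h.2.2⟩, h2⟩
    · rintro ⟨h1, h2⟩
      exact ⟨fun h => h1 ⟨by omega, by omega, h.2.2⟩, h2⟩
  have hsrc : src ((x, y, b) : Edg) = (trl x y).ψ (src (0, 0, b)) := by simp
  have htgt : tgt ((x, y, b) : Edg) = (trl x y).ψ (tgt (0, 0, b)) := by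
    cases b <;> simp [add_comm]
  rw [e1, hsrc, htgt]
  exact (trl x y).reach_iff

theorem pr_LCo (q : ℝ) (e : Edg) (m : ℕ) : PQ q (blk (bp e) m) (LCo e) = hpl e.2.2 m q := by
  obtain ⟨x, y, b⟩ := e
  have e2 : blk (bp (x, y, b)) m = (trl x y).mp (boxE m) := by
    unfold blk boxE bp
    rw [trl_RE]
    congr 1 <;> simp only <;> ring
  rw [e2]
  unfold PQ hpl
  rw [LSym.pr]
  exact Pr_congr fun F _ => LCo_trl x y b F

theorem src_in {e : Edg} {m : ℕ} (hm : 1 ≤ m) :
    inR (e.1 - m) (e.1 + m) (e.2.1 - m) (e.2.1 + m) (src e) ∧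
      inR (e.1 - m) (e.1 + m) (e.2.1 - m) (e.2.1 + m) (tgt e) := BS_adj_box (bp_mem_blk hm)

theorem fe_cases {M m : ℕ} (hm : 1 ≤ m) (hM : 2 * m < M) {e : Edg} (he : red M e = e)
    {F : Finset Edg} (h : fe M e F) : LCo e (pull M (blk (bp e) m) F) ∨ L4T M m e F := by
  by_cases hL : LCo e (pull M (blk (bp e) m) F)
  · exact Or.inl hL
  right
  obtain ⟨hin1, hin2⟩ := src_in (e := e) hm
  obtain ⟨z, hz⟩ := h
  have hsub : lft M (F.erase e) ∩ ↑(RE (e.1 - m) (e.1 + m) (e.2.1 - m) (e.2.1 + m)) ⊆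
      (lft M F ∩ ↑(RE (e.1 - m) (e.1 + m) (e.2.1 - m) (e.2.1 + m))) \ {e} := by
    rintro g ⟨hg1, hg2⟩
    have hg3 : red M g ∈ F.erase e := hg1
    rw [Finset.mem_erase] at hg3
    refine ⟨⟨hg3.2, hg2⟩, ?_⟩
    rintro rfl
    exact hg3.1 he
  have hsub2 : (lft M F ∩ ↑(RE (e.1 - m) (e.1 + m) (e.2.1 - m) (e.2.1 + m))) \ {e} ⊆
      (↑((pull M (blk (bp e) m) F).erase e) : Set Edg) := by
    rintro g ⟨⟨hg1, hg2⟩, hg3⟩
    rw [Finset.mem_coe, Finset.mem_erase, mem_pull]
    exact ⟨hg3, hg2, hg1⟩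
  have hnot : ¬ Reach ((lft M F ∩ ↑(RE (e.1 - m) (e.1 + m) (e.2.1 - m) (e.2.1 + m))) \ {e})
      (src e) (tgt e) := fun hr => hL (hr.mono hsub2)
  have hMm : (2:ℤ) * m < M := by exact_mod_cast hM
  have small : ∀ z : ℤ × ℤ, |(M:ℤ) * z.1| ≤ 2 * m → |(M:ℤ) * z.2| ≤ 2 * m → z = (0, 0) := by
    intro z h1 h2
    have hM0 : (0:ℤ) < M := by omega
    have k1 : z.1 = 0 := by
      by_contra hne
      have : 1 ≤ |z.1| := Int.one_le_abs hne
      rw [abs_mul, abs_of_pos hM0] at h1
      nlinarith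
    have k2 : z.2 = 0 := by
      by_contra hne
      have : 1 ≤ |z.2| := Int.one_le_abs hne
      rw [abs_mul, abs_of_pos hM0] at h2
      nlinarith
    exact Prod.ext k1 k2
  refine ⟨?_, ?_, hnot⟩
  · rcases exitOr hin1 hz with ⟨w, hw, hr⟩ | ⟨h1, h2⟩
    · exact ⟨w, hw, hr.mono hsub⟩
    · exfalso
      have hz0 : z = (0, 0) := by
        apply small
        · unfold inR sh at h1
          unfold inR at hin2
          simp only at h1
          rw [abs_le]
          omega
        · unfold inR sh at h1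
          unfold inR at hin2
          simp only at h1
          rw [abs_le]
          omega
      rw [hz0, sh_zero] at h2
      exact hnot (h2.mono hsub)
  · have hz' := reach_sh (-z.1, -z.2) hz.symm
    rw [sh_neg] at hz'
    rcases exitOr hin2 hz' with ⟨w, hw, hr⟩ | ⟨h1, h2⟩
    · exact ⟨w, hw, hr.mono hsub⟩
    · exfalso
      have hz0 : ((-z.1, -z.2) : ℤ × ℤ) = (0, 0) := by
        apply small
        · unfold inR sh at h1
          unfold inR at hin1
          simp only at h1 ⊢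
          rw [abs_le]
          omega
        · unfold inR sh at h1
          unfold inR at hin1
          simp only at h1 ⊢
          rw [abs_le]
          omega
      rw [hz0, sh_zero] at h2
      exact hnot (h2.symm.mono hsub)

theorem LCo_fe {M m : ℕ} (hm : 1 ≤ m) (hM : 2 * m < M) {e : Edg} (he : red M e = e)
    {F : Finset Edg} (h : LCo e (pull M (blk (bp e) m) F)) : fe M e F := by
  apply Ct.of_reach
  refine h.mono ?_
  intro g hg
  rw [Finset.mem_coe, Finset.mem_erase, mem_pull] at hg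
  show red M g ∈ F.erase e
  rw [Finset.mem_erase]
  refine ⟨fun h3 => hg.1 ?_, hg.2.2⟩
  exact inj_blk (c := bp e) hM (Finset.mem_coe.2 hg.2.1) (Finset.mem_coe.2 (bp_mem_blk hm))
    (by rw [h3, he])

theorem a4_nonneg {q : ℝ} (h0 : 0 ≤ q) (h1 : q ≤ 1) (m : ℕ) : 0 ≤ a4 q m := by
  unfold a4
  exact add_nonneg (Pr_nonneg (okq h0 h1) _ _) (Pr_nonneg (okq h0 h1) _ _)

theorem LCo_cases {m : ℕ} (hm : 1 ≤ m) {b : Bool} {F : Finset Edg} (h : LCo (0, 0, b) F) :
    LCo (0, 0, b) (F ∩ boxE m) ∨ L4 m (0, 0, b) (↑F : Set Edg) := by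
  by_cases hL : LCo (0, 0, b) (F ∩ boxE m)
  · exact Or.inl hL
  right
  obtain ⟨hin1, hin2⟩ := src_in (e := (0, 0, b)) hm
  have hbox : boxE m = RE ((0:ℤ) - m) (0 + m) (0 - m) (0 + m) := by
    unfold boxE; congr 1 <;> ring
  have hsub : (↑(F.erase (0, 0, b)) : Set Edg) ∩ ↑(RE ((0:ℤ) - m) (0 + m) (0 - m) (0 + m)) ⊆
      ((↑F : Set Edg) ∩ ↑(RE ((0:ℤ) - m) (0 + m) (0 - m) (0 + m))) \ {(0, 0, b)} := by
    rintro g ⟨hg1, hg2⟩
    rw [Finset.mem_coe, Finset.mem_erase] at hg1
    exact ⟨⟨hg1.2, hg2⟩, hg1.1⟩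
  have hsub2 : ((↑F : Set Edg) ∩ ↑(RE ((0:ℤ) - m) (0 + m) (0 - m) (0 + m))) \ {(0, 0, b)} ⊆
      (↑((F ∩ boxE m).erase (0, 0, b)) : Set Edg) := by
    rintro g ⟨⟨hg1, hg2⟩, hg3⟩
    rw [Finset.mem_coe, Finset.mem_erase, Finset.mem_inter, hbox]
    exact ⟨hg3, hg1, hg2⟩
  have hnot : ¬ Reach (((↑F : Set Edg) ∩ ↑(RE ((0:ℤ) - m) (0 + m) (0 - m) (0 + m))) \ {(0, 0, b)})
      (src (0, 0, b)) (tgt (0, 0, b)) := fun hr => hL (hr.mono hsub2)
  refine ⟨?_, ?_, hnot⟩
  · rcases exitOr hin1 h with ⟨w, hw, hr⟩ | ⟨h1, h2⟩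
    · exact ⟨w, hw, hr.mono hsub⟩
    · exact absurd (h2.mono hsub) hnot
  · rcases exitOr hin2 (Reach.symm h) with ⟨w, hw, hr⟩ | ⟨h1, h2⟩
    · exact ⟨w, hw, hr.mono hsub⟩
    · exact absurd (h2.symm.mono hsub) hnot

theorem taskC : TaskC := by
  intro q h0 h1 m hm
  have ok := okq h0 h1
  constructor
  · intro M hM e he
    have hM' : 2 * m < M := by omega
    have hre := red_of_mem he
    have hM0 : 0 < M := by omega
    have hS : ∀ g ∈ blk (bp e) m, red M g ∈ EM M := fun g _ => red_mem_EM hM0 g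
    have key : PQ q (EM M) (fun F => LCo e (pull M (blk (bp e) m) F)) = hpl e.2.2 m q := by
      rw [PQ_pull (inj_blk hM') hS (LCo e), pr_LCo]
    constructor
    · rw [← key]
      exact Pr_mono ok fun F _ h => LCo_fe hm hM' hre h
    · calc PQ q (EM M) (fe M e)
          ≤ PQ q (EM M) (fun F => LCo e (pull M (blk (bp e) m) F) ∨ L4T M m e F) :=
            Pr_mono ok fun F _ h => fe_cases hm hM' hre h
        _ ≤ PQ q (EM M) (fun F => LCo e (pull M (blk (bp e) m) F)) + PQ q (EM M) (L4T M m e) :=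
            Pr_or_le ok _ _ _
        _ ≤ hpl e.2.2 m q + a4 q m := by
            rw [key]
            exact add_le_add le_rfl (pr_L4T h0 h1 hM' hS)
  · intro b
    unfold hinf
    apply ciSup_le
    intro m'
    have ha := a4_nonneg h0 h1 m
    rcases le_total m' m with hmm | hmm
    · have : hpl b m' q ≤ hpl b m q := by
        unfold hpl
        apply Pr_mono_set ok (boxE_mono hmm)
        intro F G h _ hF
        exact LCo_mono (e := (0, 0, b)) h hF
      linarith
    · have hbox : boxE m ⊆ boxE m' := boxE_mono hmm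
      have e0' : blk (bp (0, 0, b)) m = boxE m := by
        unfold blk boxE bp; congr 1 <;> simp
      calc hpl b m' q = PQ q (boxE m') (LCo (0, 0, b)) := rfl
        _ ≤ PQ q (boxE m') (fun F => LCo (0, 0, b) (F ∩ boxE m) ∨ L4 m (0, 0, b) (↑F : Set Edg)) :=
            Pr_mono ok fun F _ h => LCo_cases hm h
        _ ≤ PQ q (boxE m') (fun F => LCo (0, 0, b) (F ∩ boxE m)) +
            PQ q (boxE m') (fun F => L4 m (0, 0, b) (↑F : Set Edg)) := Pr_or_le ok _ _ _
        _ ≤ hpl b m q + a4 q m := by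
            refine add_le_add ?_ (pr_L4 h0 h1 (by rw [e0']; exact hbox))
            have : PQ q (boxE m') (fun F => LCo (0, 0, b) (F ∩ boxE m)) =
                PQ q (boxE m) (fun F => LCo (0, 0, b) (F ∩ boxE m)) := by
              apply Pr_local hbox
              intro F _
              rw [Finset.inter_assoc, Finset.inter_self]
            rw [this]
            refine le_of_eq (Pr_congr fun F hF => ?_)
            rw [Finset.inter_eq_left.2 hF]
            exact Iff.rfl

end H676A
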