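import Pool.Agent.H370R3.BX.Stmts

set_option autoImplicit false
set_option maxHeartbeats 4000000

/-!
Task DEGEN of the project H370-BX.
-/

open Set Filter Topology unitInterval

namespace Pool.Agent.H676R4.BXDegen

open Pool.Agent.H370R3.BX

theorem pull_mk {D D' : Type} [TopologicalSpace D] [TopologicalSpace D'] {B : Set D} (B' : Set D')
    {Y : Type} [TopologicalSpace Y] {y0 : Y} (φ : C(D', D)) (h : ∀ b ∈ B', φ b ∈ B)
    (p : Path (RC.base D B Y y0) (RC.base D B Y y0)) :
    LG.pull B' φ h (FundamentalGroup.fromPath (Path.Homotopic.Quotient.mk p)) =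
      FundamentalGroup.fromPath (Path.Homotopic.Quotient.mk
        (p.map (RC.pull B B' Y y0 φ h).continuous)) := rfl

theorem exists_mk {D : Type} [TopologicalSpace D] {B : Set D} {Y : Type} [TopologicalSpace Y] {y0 : Y}
    (x : LG D B Y y0) : ∃ p : Path (RC.base D B Y y0) (RC.base D B Y y0),
      x = FundamentalGroup.fromPath (Path.Homotopic.Quotient.mk p) := by
  obtain ⟨p, hp⟩ := Quotient.exists_rep (s := Path.Homotopic.setoid _ _) x
  exact ⟨p, hp.symm⟩

/-- functoriality -/
theorem pull_pull {D D' D'' : Type} [TopologicalSpace D] [TopologicalSpace D'] [TopologicalSpace D'']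
    {B : Set D} {B' : Set D'} (B'' : Set D'') {Y : Type} [TopologicalSpace Y] {y0 : Y}
    (φ : C(D', D)) (h : ∀ b ∈ B', φ b ∈ B) (φ' : C(D'', D')) (h' : ∀ b ∈ B'', φ' b ∈ B')
    (x : LG D B Y y0) :
    LG.pull B'' φ' h' (LG.pull B' φ h x) =
      LG.pull B'' (φ.comp φ') (fun b hb => h _ (h' b hb)) x := by
  obtain ⟨p, rfl⟩ := exists_mk x
  rfl

/-- pull back along the identity -/
theorem pull_id {D : Type} [TopologicalSpace D] {B : Set D} {Y : Type} [TopologicalSpace Y] {y0 : Y}
    (φ : C(D, D)) (hφ : ∀ d, φ d = d) (h : ∀ b ∈ B, φ b ∈ B) (x : LG D B Y y0) :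
    LG.pull B φ h x = x := by
  have e : φ = ContinuousMap.id D := ContinuousMap.ext hφ
  subst e
  obtain ⟨p, rfl⟩ := exists_mk x
  rw [pull_mk]
  rfl

/-- pull back along a map into the subset -/
theorem pull_triv {D D' : Type} [TopologicalSpace D] [TopologicalSpace D'] {B : Set D} (B' : Set D')
    {Y : Type} [TopologicalSpace Y] {y0 : Y} (φ : C(D', D)) (h : ∀ b ∈ B', φ b ∈ B)
    (hφ : ∀ d, φ d ∈ B) (x : LG D B Y y0) : LG.pull B' φ h x = 1 := by
  obtain ⟨p, rfl⟩ := exists_mk x
  rw [pull_mk]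
  have e : p.map (RC.pull B B' Y y0 φ h).continuous = Path.refl (RC.base D' B' Y y0) := by
    apply Path.ext
    funext t
    apply Subtype.ext
    apply ContinuousMap.ext
    intro d
    exact (p t).2 _ (hφ d)
  rw [e]
  rfl

/-- dropping a coordinate -/
def drop (n : ℕ) (i : Fin (n + 1)) : C(Fin (n + 1) → I, Fin n → I) where
  toFun t := fun k => t (i.succAbove k)
  continuous_toFun := continuous_pi fun k => continuous_apply _

theorem drop_mem (n : ℕ) (i : Fin (n + 1)) (t : Fin (n + 1) → I) (ht : t ∈ bd2 (n + 1)) :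
    drop n i t ∈ bdry n := by
  obtain ⟨p, q, hpq, hp, hq⟩ := ht
  rcases Fin.eq_self_or_eq_succAbove i p with rfl | ⟨k, rfl⟩
  · rcases Fin.eq_self_or_eq_succAbove p q with rfl | ⟨k, rfl⟩
    · exact absurd rfl hpq
    · exact ⟨k, hq⟩
  · exact ⟨k, hp⟩

theorem drop_facet (n : ℕ) (i : Fin (n + 1)) (e : I) (t : Fin n → I) :
    drop n i (facet n i e t) = t := by
  funext k
  show (Fin.insertNth i e t : Fin (n + 1) → I) (i.succAbove k) = t k
  simp

theorem drop_facet_mem (n : ℕ) (i j : Fin (n + 1)) (hj : j ≠ i) (e : I) (he : e = 0 ∨ e = 1)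
    (t : Fin n → I) : drop n i (facet n j e t) ∈ bdry n := by
  rcases Fin.eq_self_or_eq_succAbove i j with rfl | ⟨k, rfl⟩
  · exact absurd rfl hj
  · refine ⟨k, ?_⟩
    have : drop n i (facet n (i.succAbove k) e t) k = e := by
      show (Fin.insertNth (i.succAbove k) e t : Fin (n + 1) → I) (i.succAbove k) = e
      simp
    rw [this]
    exact he

theorem taskDegen_proof : TaskDegen := by
  intro n Y _ y0 i a
  refine ⟨LG.pull (bd2 (n + 1)) (drop n i) (drop_mem n i) a, ?_, ?_, fun j hj => ⟨?_, ?_⟩⟩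
  · unfold fc0
    rw [pull_pull]
    exact pull_id _ (drop_facet n i 0) _ a
  · unfold fc1
    rw [pull_pull]
    exact pull_id _ (drop_facet n i 1) _ a
  · unfold fc0
    rw [pull_pull]
    exact pull_triv _ _ _ (drop_facet_mem n i j hj 0 (Or.inl rfl)) a
  · unfold fc1
    rw [pull_pull]
    exact pull_triv _ _ _ (drop_facet_mem n i j hj 1 (Or.inr rfl)) a

end Pool.Agent.H676R4.BXDegen
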