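import Pool.Agent.H104R3.EG.Stmts2

/-! Task `TaskRigNA1` of the project H104-EG: rigid systems, simple minimal normal subgroup.
(helper676) -/

set_option autoImplicit false

namespace Pool.Agent.H676R4.EGNA1

open Pool.Agent.H104R3.EG

theorem real_mono {G : Type} [Group G] {n : ℕ} {P Q : (G → G) → Prop} (h : Real G n P)
    (hPQ : ∀ α, P α → Q α) : Real G n Q := by
  obtain ⟨S, h1, h2⟩ := h
  exact ⟨S, h1, fun α hα => hPQ α (h2 α hα)⟩

theorem core_trivial {X : Type} [Group X] [Finite X] [IsSimpleGroup X] (q : ℕ) [Fact q.Prime]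
    (hna : ∃ x y : X, x * y ≠ y * x) (Q : Subgroup X) (hQ : IsPGroup q Q) (y : X)
    (hy : ∀ t : X, t * y * t⁻¹ ∈ Q) : y = 1 := by
  have h1 : y ∈ Q.normalCore := hy
  rcases IsSimpleGroup.eq_bot_or_eq_top_of_normal Q.normalCore inferInstance with h | h
  · rw [h] at h1
    exact Subgroup.mem_bot.mp h1
  · exfalso
    have h2 : Q = ⊤ := top_le_iff.mp (h ▸ Q.normalCore_le)
    have h3 : IsPGroup q X := by
      rw [h2] at hQ
      exact hQ.of_equiv Subgroup.topEquiv
    have h4 := h3.bot_lt_center
    rcases IsSimpleGroup.eq_bot_or_eq_top_of_normal (Subgroup.center X) inferInstance with h5 | h5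
    · exact absurd h5 h4.ne'
    · obtain ⟨a, b, hab⟩ := hna
      apply hab
      have h6 : a ∈ Subgroup.center X := by rw [h5]; trivial
      exact (Subgroup.mem_center_iff.mp h6 b).symm

theorem taskRigNA1 : TaskRigNA1 := by
  intro comb inv gens simp srig s G _ _ X c hmin hsimple hnonab hsec hyp
  have hXn : X.Normal := hmin.1
  have hXbot : X ≠ ⊥ := hmin.2.1
  obtain ⟨t, ht⟩ := simp s G hsec X hsimple hnonab
  have hcard : Nat.card X ≠ 1 := fun h => hXbot (Subgroup.card_eq_one.mp h)
  obtain ⟨q, hq, hqd⟩ := Nat.exists_prime_and_dvd hcard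
  have : Fact q.Prime := ⟨hq⟩
  obtain ⟨Q⟩ : Nonempty (Sylow q X) := inferInstance
  have hQbot : (Q : Subgroup X) ≠ ⊥ := Q.ne_bot_of_dvd_card hqd
  set K : Subgroup G := (Q : Subgroup X).map X.subtype with hK
  set M : Subgroup G := Subgroup.normalizer (K : Set G) with hM
  have hfr : M ⊔ X = ⊤ := Sylow.normalizer_sup_eq_top Q
  have hKM : K ≤ M := Subgroup.le_normalizer
  have hnorm : (K.subgroupOf M).Normal := Subgroup.normal_in_normalizer
  have hKX : K ≤ X := by
    rw [hK]
    exact Subgroup.map_subtype_le _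
  have hKbot : K ≠ ⊥ := by
    intro h
    apply hQbot
    rw [hK, Subgroup.map_eq_bot_iff_of_injective _ X.subtype_injective] at h
    exact h
  have hKMbot : K.subgroupOf M ≠ ⊥ := by
    intro h
    rw [Subgroup.subgroupOf_eq_bot, disjoint_iff, inf_eq_left.mpr hKM] at h
    exact hKbot h
  have hr := srig G K M _ hKM (hyp M (K.subgroupOf M) hKMbot)
  have hg := gens G s t
  have hc := comb G _ _ _ _ hg hr
  refine ⟨_, real_mono hc ?_, ?_⟩
  · rintro α ⟨h1, h2⟩
    obtain ⟨I, hI⟩ := inv G α
    have hXI : X ≤ I := by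
      rw [← ht, Subgroup.closure_le]
      rintro _ ⟨i, rfl⟩
      exact (hI _).mpr (h1 i)
    have hMI : M ≤ I := by
      intro x hx
      rw [hI]
      intro k
      obtain ⟨y, hy, hy2⟩ := h2 x hx k
      have hyX : y ∈ X := hKX hy
      have hkey : ∀ t' ∈ X, t'⁻¹ * y * t' ∈ K := by
        intro t' ht'
        -- t = x t' x⁻¹
        have htX : x * t' * x⁻¹ ∈ X := hXn.conj_mem t' ht' x
        obtain ⟨y', hy', hy2'⟩ := h2 x hx (k * (x * t' * x⁻¹))
        have e1 : k * (x * t' * x⁻¹) * x = k * x * t' := by group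
        have e2 : α (k * x * t') = α (k * x) * t' := (hI t').mp (hXI ht') (k * x)
        have e3 : α (k * (x * t' * x⁻¹)) = α k * (x * t' * x⁻¹) := (hI _).mp (hXI htX) k
        rw [e1, e2, e3, hy2] at hy2'
        have e4 : y * t' = t' * y' := by
          have e5 : α k * x * y * t' = α k * x * (t' * y') := by
            rw [hy2']
            group
          rw [mul_assoc (α k * x) y t'] at e5
          exact mul_left_cancel e5
        have e6 : t'⁻¹ * y * t' = y' := by
          rw [mul_assoc, e4]
          group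
        rw [e6]
        exact hy'
      have hy1 : (⟨y, hyX⟩ : X) = 1 := by
        apply core_trivial q _ (Q : Subgroup X) Q.isPGroup'
        · intro t'
          have h3 := hkey (t'⁻¹ : X) (t'⁻¹).2
          rw [hK, Subgroup.mem_map] at h3
          obtain ⟨z, hz, hz2⟩ := h3
          have h4 : z = t' * ⟨y, hyX⟩ * t'⁻¹ := by
            apply Subtype.ext
            simpa using hz2
          rw [← h4]
          exact hz
        · obtain ⟨a, ha, b, hb, hab⟩ := hnonab
          exact ⟨⟨a, ha⟩, ⟨b, hb⟩, fun h => hab (congrArg Subtype.val h)⟩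
      have hy3 : y = 1 := congrArg Subtype.val hy1
      rw [hy2, hy3, mul_one]
    intro x
    rw [← hI]
    have : (⊤ : Subgroup G) ≤ I := by
      rw [← hfr]
      exact sup_le hMI hXI
    exact this trivial
  · have e1 : M.index * (c * Nat.card (M ⧸ K.subgroupOf M)) = c * K.index := by
      have e2 : Nat.card (M ⧸ K.subgroupOf M) * M.index = K.index :=
        Subgroup.relIndex_mul_index hKM
      rw [← e2]
      ring
    have e3 : Nat.card K * K.index = Nat.card G := K.card_mul_index
    have e4 : 2 ≤ Nat.card K := by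
      have h1 : Nat.card K ≠ 1 := fun h => hKbot (Subgroup.card_eq_one.mp h)
      have h2 : 0 < Nat.card K := Nat.card_pos
      omega
    have e5 : 2 * K.index ≤ Nat.card G := by
      rw [← e3]
      exact Nat.mul_le_mul_right _ e4
    rw [e1]
    have e6 : c * (2 * K.index) ≤ c * Nat.card G := Nat.mul_le_mul_left _ e5
    nlinarith

end Pool.Agent.H676R4.EGNA1
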