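import Pool.Agent.H152R3.KD.Stmts

set_option autoImplicit false

/-!
Task BAS of the project KD: basic properties of the point sets.
-/

open MeasureTheory Filter Topology Set

namespace Pool.Agent.H676R4.KDBas

open Pool.Agent.H152R3.KD

theorem hh_zero (D γ x : ℝ) : hh D γ x 0 = 0 := by
  unfold hh; simp

theorem hh_succ (D γ x : ℝ) (n : ℤ) : hh D γ x (n + 1) = hh D γ x n + hit D γ x n := by
  unfold hh
  rcases le_or_gt 0 n with h | h
  · have e1 : Finset.Ico 0 (n + 1) = insert n (Finset.Ico 0 n) := by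
      ext j; simp only [Finset.mem_Ico, Finset.mem_insert]; omega
    have e2 : Finset.Ico (n + 1) 0 = ∅ := Finset.Ico_eq_empty (by omega)
    have e3 : Finset.Ico n 0 = ∅ := Finset.Ico_eq_empty (by omega)
    rw [e1, e2, e3, Finset.sum_insert (by simp)]
    simp only [Finset.sum_empty]
    ring
  · have e1 : Finset.Ico n 0 = insert n (Finset.Ico (n + 1) 0) := by
      ext j; simp only [Finset.mem_Ico, Finset.mem_insert]; omega
    have e2 : Finset.Ico 0 (n + 1) = ∅ := Finset.Ico_eq_empty (by omega)
    have e3 : Finset.Ico 0 n = ∅ := Finset.Ico_eq_empty (by omega)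
    rw [e1, e2, e3, Finset.sum_insert (by simp)]
    simp only [Finset.sum_empty]
    ring

theorem XX_zero (a b D γ x : ℝ) : XX a b D γ x 0 = 0 := by
  unfold XX; rw [hh_zero]; simp

theorem XX_succ (a b D γ x : ℝ) (n : ℤ) :
    XX a b D γ x (n + 1) = XX a b D γ x n + (a + b * hit D γ x n) := by
  unfold XX; rw [hh_succ]; push_cast; ring

theorem hit_shift (D γ x : ℝ) (n k : ℤ) : hit D γ (x + n * γ) k = hit D γ x (n + k) := by
  unfold hit
  have : x + n * γ + k * γ = x + ((n + k : ℤ) : ℝ) * γ := by push_cast; ring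
  rw [this]

theorem XX_add (a b D γ x : ℝ) (n k : ℤ) :
    XX a b D γ x (n + k) = XX a b D γ x n + XX a b D γ (x + n * γ) k := by
  induction k using Int.induction_on with
  | zero => rw [add_zero, XX_zero, add_zero]
  | succ k ih =>
    rw [← add_assoc, XX_succ, ih, XX_succ, hit_shift]
    ring
  | pred k ih =>
    have h1 := XX_succ a b D γ x (n + (-(k : ℤ) - 1))
    have h2 := XX_succ a b D γ (x + n * γ) (-(k : ℤ) - 1)
    have e1 : n + (-(k : ℤ) - 1) + 1 = n + -(k : ℤ) := by ring
    have e2 : -(k : ℤ) - 1 + 1 = -(k : ℤ) := by ring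
    rw [e1, ih] at h1
    rw [e2, hit_shift] at h2
    linarith

theorem hit_cases (D γ x : ℝ) (n : ℤ) : hit D γ x n = 0 ∨ hit D γ x n = 1 := by
  unfold hit
  split_ifs
  · exact Or.inr rfl
  · exact Or.inl rfl

theorem incr (a b D γ x : ℝ) (n : ℤ) (k : ℕ) :
    min a (a + b) * (k : ℝ) ≤ XX a b D γ x (n + k) - XX a b D γ x n ∧
      XX a b D γ x (n + k) - XX a b D γ x n ≤ max a (a + b) * (k : ℝ) := by
  induction k with
  | zero => simp
  | succ k ih =>
    have e : n + ((k + 1 : ℕ) : ℤ) = n + k + 1 := by push_cast; ring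
    rw [e, XX_succ]
    have h : min a (a + b) ≤ a + b * (hit D γ x (n + k) : ℝ) ∧
        a + b * (hit D γ x (n + k) : ℝ) ≤ max a (a + b) := by
      rcases hit_cases D γ x (n + k) with h | h
      · rw [h]; simp
      · rw [h]; simp
    push_cast
    constructor
    · linarith [ih.1, h.1]
    · linarith [ih.2, h.2]

theorem incr' (a b D γ x : ℝ) (n m : ℤ) (h : n ≤ m) :
    min a (a + b) * (m - n : ℤ) ≤ XX a b D γ x m - XX a b D γ x n ∧
    XX a b D γ x m - XX a b D γ x n ≤ max a (a + b) * (m - n : ℤ) := by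
  obtain ⟨k, hk⟩ := Int.eq_ofNat_of_zero_le (sub_nonneg.2 h)
  have hm : m = n + k := by omega
  have := incr a b D γ x n k
  rw [hk]
  rw [hm]
  exact_mod_cast this

theorem hit_one (D γ x : ℝ) (n : ℤ) : hit D γ (x + 1) n = hit D γ x n := by
  unfold hit
  have : x + 1 + n * γ = (x + n * γ) + 1 := by ring
  rw [this, Int.fract_add_one]

theorem hit_meas (D γ : ℝ) (n : ℤ) : Measurable (fun θ => hit D γ θ n) := by
  unfold hit
  refine Measurable.ite ?_ measurable_const measurable_const
  exact measurableSet_lt (measurable_fract.comp (measurable_id.add_const _)) measurable_const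

theorem taskBAS : TaskBAS := by
  intro a b D γ x ha hab
  refine ⟨XX_zero a b D γ x, XX_succ a b D γ x, XX_add a b D γ x, incr' a b D γ x, ?_, ?_, ?_⟩
  · intro n m hnm
    have h1 := (incr' a b D γ x n m hnm.le).1
    have h2 : 0 < min a (a + b) := lt_min ha hab
    have h3 : (0 : ℝ) < ((m - n : ℤ) : ℝ) := by exact_mod_cast sub_pos.2 hnm
    have := mul_pos h2 h3
    linarith
  · intro n
    unfold XX hh
    simp only [hit_one]
  · intro n
    have h1 : Measurable (fun θ => hh D γ θ n) := by
      unfold hh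
      exact (Finset.measurable_sum _ fun j _ => hit_meas D γ j).sub
        (Finset.measurable_sum _ fun j _ => hit_meas D γ j)
    have h2 : Measurable (fun θ => ((hh D γ θ n : ℤ) : ℝ)) := measurable_from_top.comp h1
    unfold XX
    exact (h2.const_mul b).const_add _

end Pool.Agent.H676R4.KDBas
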