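import Pool.Agent.H212R4.Kes.Stmts

set_option autoImplicit false

/-!
Task FEJER of the project H212-KESTEN.
-/

open MeasureTheory Filter Topology

namespace Pool.Agent.H676R4.KesFejer

open Pool.Agent.H212R4.Kes

/-- distance of natural numbers -/
def dd (n m : ℕ) : ℕ := (n - m) + (m - n)

theorem dd_sum (ρ : ℕ → ℝ) (N : ℕ) :
    ∑ n ∈ Finset.range N, ∑ m ∈ Finset.range N, ρ (dd n m) =
      N * ρ 0 + ∑ r ∈ Finset.range N, 2 * ((N : ℝ) - ((r : ℝ) + 1)) * ρ (r + 1) := by
  induction N with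
  | zero => simp
  | succ N ih =>
    rw [Finset.sum_range_succ]
    have h1 : ∑ n ∈ Finset.range N, ∑ m ∈ Finset.range (N + 1), ρ (dd n m) =
        ∑ n ∈ Finset.range N, ∑ m ∈ Finset.range N, ρ (dd n m) +
          ∑ n ∈ Finset.range N, ρ (N - n) := by
      rw [← Finset.sum_add_distrib]
      refine Finset.sum_congr rfl fun n hn => ?_
      rw [Finset.sum_range_succ]
      rw [Finset.mem_range] at hn
      have : dd n N = N - n := by unfold dd; omega
      rw [this]
    have h2 : ∑ m ∈ Finset.range (N + 1), ρ (dd N m) = ∑ m ∈ Finset.range N, ρ (N - m) + ρ 0 := by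
      rw [Finset.sum_range_succ]
      have h3 : dd N N = 0 := by unfold dd; omega
      rw [h3]
      congr 1
      refine Finset.sum_congr rfl fun n hn => ?_
      rw [Finset.mem_range] at hn
      have : dd N n = N - n := by unfold dd; omega
      rw [this]
    have h4 : ∑ n ∈ Finset.range N, ρ (N - n) = ∑ r ∈ Finset.range N, ρ (r + 1) := by
      rw [← Finset.sum_range_reflect]
      refine Finset.sum_congr rfl fun n hn => ?_
      rw [Finset.mem_range] at hn
      congr 1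
      omega
    rw [h1, h2, h4, ih, Finset.sum_range_succ]
    have h5 : ∑ r ∈ Finset.range N, 2 * (((N + 1 : ℕ) : ℝ) - ((r : ℝ) + 1)) * ρ (r + 1) =
        ∑ r ∈ Finset.range N, 2 * ((N : ℝ) - ((r : ℝ) + 1)) * ρ (r + 1) +
          2 * ∑ r ∈ Finset.range N, ρ (r + 1) := by
      rw [Finset.mul_sum, ← Finset.sum_add_distrib]
      refine Finset.sum_congr rfl fun r _ => ?_
      push_cast
      ring
    rw [h5]
    push_cast
    ring

theorem shift_int (g : ℝ → ℝ) (hg : ∀ x, g (x + 1) = g x) (d : ℝ) :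
    ∫ x in (0 : ℝ)..1, g (x + d) = ∫ x in (0 : ℝ)..1, g x := by
  rw [intervalIntegral.integral_comp_add_right]
  have hp : Function.Periodic g 1 := hg
  have := hp.intervalIntegral_add_eq d 0
  rw [zero_add] at this
  rw [zero_add, add_comm 1 d]
  exact this

theorem shift_intC (g : ℝ → ℂ) (hg : ∀ x, g (x + 1) = g x) (d : ℝ) :
    ∫ x in (0 : ℝ)..1, g (x + d) = ∫ x in (0 : ℝ)..1, g x := by
  rw [intervalIntegral.integral_comp_add_right]
  have hp : Function.Periodic g 1 := hg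
  have := hp.intervalIntegral_add_eq d 0
  rw [zero_add] at this
  rw [zero_add, add_comm 1 d]
  exact this

theorem ii_of_bdd (g : ℝ → ℂ) (hg : Measurable g) (C : ℝ) (hC : ∀ x, ‖g x‖ ≤ C) :
    IntervalIntegrable g volume 0 1 := by
  rw [intervalIntegrable_iff_integrableOn_Ioc_of_le (by norm_num)]
  refine Integrable.mono' (integrable_const C) hg.aestronglyMeasurable
    (Filter.Eventually.of_forall hC)

theorem ii_of_bddR (g : ℝ → ℝ) (hg : Measurable g) (C : ℝ) (hC : ∀ x, ‖g x‖ ≤ C) :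
    IntervalIntegrable g volume 0 1 := by
  rw [intervalIntegrable_iff_integrableOn_Ioc_of_le (by norm_num)]
  refine Integrable.mono' (integrable_const C) hg.aestronglyMeasurable
    (Filter.Eventually.of_forall hC)

theorem cs (F : ℝ → ℂ) (hF : Measurable F) (C : ℝ) (hC : ∀ x, ‖F x‖ ≤ C) :
    ‖∫ x in (0 : ℝ)..1, F x‖ ^ 2 ≤ ∫ x in (0 : ℝ)..1, ‖F x‖ ^ 2 := by
  set c := ∫ x in (0 : ℝ)..1, ‖F x‖ with hc
  have h1 : ‖∫ x in (0 : ℝ)..1, F x‖ ≤ c :=
    intervalIntegral.norm_integral_le_integral_norm (by norm_num)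
  have hi1 : IntervalIntegrable (fun x => ‖F x‖) volume 0 1 :=
    ii_of_bddR _ hF.norm C (fun x => by rw [norm_norm]; exact hC x)
  have hi2 : IntervalIntegrable (fun x => ‖F x‖ ^ 2) volume 0 1 :=
    ii_of_bddR _ (hF.norm.pow_const 2) (C ^ 2) (fun x => by
      rw [norm_pow, norm_norm]
      exact pow_le_pow_left₀ (norm_nonneg _) (hC x) 2)
  have h2 : 0 ≤ ∫ x in (0 : ℝ)..1, (‖F x‖ - c) ^ 2 :=
    intervalIntegral.integral_nonneg (by norm_num) (fun x _ => sq_nonneg _)
  have h3 : ∫ x in (0 : ℝ)..1, (‖F x‖ - c) ^ 2 = (∫ x in (0 : ℝ)..1, ‖F x‖ ^ 2) - c ^ 2 := by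
    have e : (fun x => (‖F x‖ - c) ^ 2) = fun x => (‖F x‖ ^ 2 - (2 * c) * ‖F x‖) + c ^ 2 := by
      funext x; ring
    rw [e, intervalIntegral.integral_add (hi2.sub (hi1.const_mul _)) intervalIntegrable_const,
      intervalIntegral.integral_sub hi2 (hi1.const_mul _), intervalIntegral.integral_const_mul,
      intervalIntegral.integral_const, ← hc]
    simp
    ring
  have h4 : ‖∫ x in (0 : ℝ)..1, F x‖ ^ 2 ≤ c ^ 2 := pow_le_pow_left₀ (norm_nonneg _) h1 2
  linarith

theorem norm_sq_sum (z : ℕ → ℂ) (N : ℕ) : ‖∑ n ∈ Finset.range N, z n‖ ^ 2 =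
    ∑ n ∈ Finset.range N, ∑ m ∈ Finset.range N, (z n * (starRingEnd ℂ) (z m)).re := by
  have h1 : ((‖∑ n ∈ Finset.range N, z n‖ ^ 2 : ℝ) : ℂ) =
      (∑ n ∈ Finset.range N, z n) * (starRingEnd ℂ) (∑ n ∈ Finset.range N, z n) := by
    rw [Complex.mul_conj, Complex.normSq_eq_norm_sq]
  have h2 := congrArg Complex.re h1
  rw [Complex.ofReal_re, map_sum, Finset.sum_mul_sum, Complex.re_sum] at h2
  rw [h2]
  refine Finset.sum_congr rfl fun n _ => ?_
  rw [Complex.re_sum]

theorem fejer : TaskFejer := by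
  intro γ h hm hper hn N hN
  set ρ : ℕ → ℝ := fun r => (∫ x in (0 : ℝ)..1, h (x + (r : ℝ) * γ) * (starRingEnd ℂ) (h x)).re
    with hρ
  have hNR : (0 : ℝ) < N := by exact_mod_cast hN
  have hm' : ∀ d : ℝ, Measurable (fun x => h (x + d)) := fun d => hm.comp (measurable_id.add_const d)
  have hcm : ∀ d e : ℝ, Measurable (fun x => h (x + d) * (starRingEnd ℂ) (h (x + e))) :=
    fun d e => (hm' d).mul (Complex.continuous_conj.measurable.comp (hm' e))
  have hcb : ∀ (d e x : ℝ), ‖h (x + d) * (starRingEnd ℂ) (h (x + e))‖ ≤ 1 := by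
    intro d e x
    rw [norm_mul, hn, one_mul, Complex.norm_conj, hn]
  have hci : ∀ d e : ℝ, IntervalIntegrable (fun x => h (x + d) * (starRingEnd ℂ) (h (x + e)))
      volume 0 1 := fun d e => ii_of_bdd _ (hcm d e) 1 (hcb d e)
  have hre : ∀ d e : ℝ, ∫ x in (0 : ℝ)..1, (h (x + d) * (starRingEnd ℂ) (h (x + e))).re =
      (∫ x in (0 : ℝ)..1, h (x + d) * (starRingEnd ℂ) (h (x + e))).re := fun d e =>
    Complex.reCLM.intervalIntegral_comp_comm (hci d e)
  have hρ0 : ρ 0 = 1 := by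
    simp only [hρ]
    have : ∀ x : ℝ, h (x + ((0 : ℕ) : ℝ) * γ) * (starRingEnd ℂ) (h x) = 1 := by
      intro x
      rw [Nat.cast_zero, zero_mul, add_zero, Complex.mul_conj, Complex.normSq_eq_norm_sq, hn]
      norm_num
    simp only [this]
    simp
  have hdiag : ∀ n m : ℕ, m ≤ n →
      ∫ x in (0 : ℝ)..1, (h (x + (n : ℝ) * γ) * (starRingEnd ℂ) (h (x + (m : ℝ) * γ))).re =
        ρ (n - m) := by
    intro n m hnm
    rw [hre]
    simp only [hρ]
    congr 1
    have := shift_intC (fun x => h (x + ((n - m : ℕ) : ℝ) * γ) * (starRingEnd ℂ) (h x))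
      (by
        intro x
        have : x + 1 + ((n - m : ℕ) : ℝ) * γ = (x + ((n - m : ℕ) : ℝ) * γ) + 1 := by ring
        rw [this, hper, hper]) ((m : ℝ) * γ)
    rw [← this]
    congr 1
    funext x
    have e : x + (m : ℝ) * γ + ((n - m : ℕ) : ℝ) * γ = x + (n : ℝ) * γ := by
      rw [Nat.cast_sub hnm]; ring
    rw [e]
  have hdd : ∀ n m : ℕ,
      ∫ x in (0 : ℝ)..1, (h (x + (n : ℝ) * γ) * (starRingEnd ℂ) (h (x + (m : ℝ) * γ))).re =
        ρ (dd n m) := by
    intro n m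
    rcases le_total m n with hnm | hnm
    · rw [hdiag n m hnm]
      congr 1
      unfold dd; omega
    · have : ∀ x : ℝ, (h (x + (n : ℝ) * γ) * (starRingEnd ℂ) (h (x + (m : ℝ) * γ))).re =
          (h (x + (m : ℝ) * γ) * (starRingEnd ℂ) (h (x + (n : ℝ) * γ))).re := by
        intro x
        rw [← Complex.conj_re, map_mul, Complex.conj_conj, mul_comm]
      simp only [this]
      rw [hdiag m n hnm]
      congr 1
      unfold dd; omega
  set F : ℝ → ℂ := fun x => ∑ n ∈ Finset.range N, h (x + (n : ℝ) * γ) with hFdef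
  have hFm : Measurable F := Finset.measurable_sum _ fun n _ => hm' _
  have hFb : ∀ x, ‖F x‖ ≤ N := by
    intro x
    refine (norm_sum_le _ _).trans ?_
    simp [hn]
  have hFint : ∫ x in (0 : ℝ)..1, F x = N * ∫ x in (0 : ℝ)..1, h x := by
    simp only [hFdef]
    rw [intervalIntegral.integral_finsetSum]
    · simp only [shift_intC h hper]
      simp
    · intro n _
      exact ii_of_bdd _ (hm' _) 1 (fun x => (hn _).le)
  have hFsq : ∫ x in (0 : ℝ)..1, ‖F x‖ ^ 2 =
      ∑ n ∈ Finset.range N, ∑ m ∈ Finset.range N, ρ (dd n m) := by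
    simp only [hFdef, norm_sq_sum (fun n => h (_ + (n : ℝ) * γ))]
    rw [intervalIntegral.integral_finsetSum]
    · refine Finset.sum_congr rfl fun n _ => ?_
      rw [intervalIntegral.integral_finsetSum]
      · exact Finset.sum_congr rfl fun m _ => hdd n m
      · intro m _
        exact ii_of_bddR _ (Complex.measurable_re.comp (hcm _ _)) 1
          (fun x => (Complex.abs_re_le_norm _).trans (hcb _ _ x))
    · intro n _
      refine ii_of_bddR _ (Finset.measurable_sum _ fun m _ =>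
        Complex.measurable_re.comp (hcm _ _)) N (fun x => ?_)
      refine (norm_sum_le _ _).trans ?_
      calc ∑ m ∈ Finset.range N,
            ‖(h (x + (n : ℝ) * γ) * (starRingEnd ℂ) (h (x + (m : ℝ) * γ))).re‖
          ≤ ∑ m ∈ Finset.range N, (1 : ℝ) :=
            Finset.sum_le_sum fun m _ => (Complex.abs_re_le_norm _).trans (hcb _ _ x)
        _ = N := by simp
  have hmain := cs F hFm N hFb
  rw [hFint, hFsq, dd_sum, hρ0, norm_mul, mul_pow, Complex.norm_natCast] at hmain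
  have hN2 : (0 : ℝ) < (N : ℝ) ^ 2 := by positivity
  have hgoal : ‖∫ x in (0 : ℝ)..1, h x‖ ^ 2 ≤ ((N : ℝ) * 1 +
      ∑ r ∈ Finset.range N, 2 * ((N : ℝ) - ((r : ℝ) + 1)) * ρ (r + 1)) / (N : ℝ) ^ 2 := by
    rw [le_div_iff₀ hN2]
    linarith
  refine hgoal.trans (le_of_eq ?_)
  have e1 : ∀ r : ℕ, (∫ x in (0 : ℝ)..1, h (x + ((r : ℝ) + 1) * γ) * (starRingEnd ℂ) (h x)).re =
      ρ (r + 1) := by
    intro r
    simp only [hρ]
    push_cast
    rfl
  simp only [e1]
  have e2 : ∑ r ∈ Finset.range N, 2 * ((N : ℝ) - ((r : ℝ) + 1)) * ρ (r + 1) =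
      N * ∑ r ∈ Finset.range N, (1 - ((r : ℝ) + 1) / N) * (2 * ρ (r + 1)) := by
    rw [Finset.mul_sum]
    refine Finset.sum_congr rfl fun r _ => ?_
    field_simp
  rw [e2]
  generalize ∑ r ∈ Finset.range N, (1 - ((r : ℝ) + 1) / N) * (2 * ρ (r + 1)) = S
  field_simp

end Pool.Agent.H676R4.KesFejer
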