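import Pool.Agent.H934R3.NP.Stmts

set_option autoImplicit false

/-!
Task B1 of the project NP (S05145): balls have surface measure at most `C r ^ 2`.
-/

namespace Pool.Agent.H676R4.NPB1

open MeasureTheory Set Filter Topology Pool.Agent.H934R3.NP
open scoped ENNReal NNReal

/-- the projection is 1-Lipschitz -/
theorem pr_lip : LipschitzWith 1 pr := by
  refine LipschitzWith.of_dist_le_mul fun z w => ?_
  rw [NNReal.coe_one, one_mul, EuclideanSpace.dist_eq, EuclideanSpace.dist_eq]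
  apply Real.sqrt_le_sqrt
  rw [Fin.sum_univ_two, Fin.sum_univ_three]
  simp only [pr]
  have : 0 ≤ dist (z 2) (w 2) ^ 2 := by positivity
  simp

/-- the graph map is Lipschitz if the function is -/
theorem Gr_lip {f : P2 → ℝ} {K : ℝ≥0} {t : Set P2} (h : LipschitzOnWith K f t) :
    LipschitzOnWith (1 + K) (Gr f) t := by
  refine LipschitzOnWith.of_dist_le_mul fun u hu v hv => ?_
  have h1 := h.dist_le_mul u hu v hv
  have h2 : dist (Gr f u) (Gr f v) = Real.sqrt (dist u v ^ 2 + dist (f u) (f v) ^ 2) := by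
    rw [EuclideanSpace.dist_eq, Fin.sum_univ_three]
    congr 1
    rw [EuclideanSpace.dist_eq, Real.sq_sqrt (by positivity), Fin.sum_univ_two]
    simp [Gr]
  rw [h2]
  apply Real.sqrt_le_iff.2
  constructor
  · positivity
  · push_cast
    have h3 : dist (f u) (f v) ^ 2 ≤ (K * dist u v) ^ 2 := by
      apply pow_le_pow_left₀ dist_nonneg h1
    have h4 : 0 ≤ (K : ℝ) * dist u v ^ 2 := by positivity
    nlinarith

/-- the Hausdorff measure of discs -/
theorem disc : ∃ K : ℝ≥0, ∀ (c : P2) (r : ℝ), 0 < r →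
    Measure.hausdorffMeasure 2 (Metric.closedBall c r) ≤ K * ENNReal.ofReal (r ^ 2) := by
  have hd : Module.finrank ℝ P2 = 2 := by simp [P2]
  have hH : (Measure.hausdorffMeasure (Module.finrank ℝ P2 : ℝ) : Measure P2) =
      Measure.hausdorffMeasure 2 := by rw [hd]; norm_num
  haveI : (Measure.hausdorffMeasure 2 : Measure P2).IsAddHaarMeasure := by
    rw [← hH]
    exact isAddHaarMeasure_hausdorffMeasure
  refine ⟨((Measure.hausdorffMeasure 2 : Measure P2) (Metric.ball 0 1)).toNNReal, ?_⟩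
  intro c r hr
  rw [Measure.addHaar_closedBall _ c hr.le, hd, mul_comm,
    ENNReal.coe_toNNReal measure_ball_lt_top.ne]

/-- positivity of the Hausdorff measure of the unit sphere -/
theorem sphere_pos : Measure.hausdorffMeasure 2 (Metric.sphere (0 : E) 1) ≠ 0 := by
  have hd : Module.finrank ℝ P2 = 2 := by simp [P2]
  have hH : (Measure.hausdorffMeasure (Module.finrank ℝ P2 : ℝ) : Measure P2) =
      Measure.hausdorffMeasure 2 := by rw [hd]; norm_num
  haveI : (Measure.hausdorffMeasure 2 : Measure P2).IsAddHaarMeasure := by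
    rw [← hH]
    exact isAddHaarMeasure_hausdorffMeasure
  have hsub : Metric.ball (0 : P2) 1 ⊆ pr '' Metric.sphere (0 : E) 1 := by
    intro u hu
    rw [mem_ball_zero_iff] at hu
    have h1 : 0 ≤ 1 - ‖u‖ ^ 2 := by
      have := norm_nonneg u
      nlinarith
    refine ⟨!₂[u 0, u 1, Real.sqrt (1 - ‖u‖ ^ 2)], ?_, ?_⟩
    · rw [mem_sphere_zero_iff_norm, EuclideanSpace.norm_eq, Fin.sum_univ_three]
      simp only [Real.norm_eq_abs, sq_abs]
      simp
      rw [Real.sq_sqrt h1, EuclideanSpace.norm_sq_eq, Fin.sum_univ_two]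
      simp
    · ext i
      fin_cases i <;> simp [pr]
  have h1 : (0 : ℝ≥0∞) < Measure.hausdorffMeasure 2 (Metric.ball (0 : P2) 1) :=
    Metric.measure_ball_pos _ _ one_pos
  have h2 := pr_lip.hausdorffMeasure_image_le (d := 2) (by norm_num) (Metric.sphere (0 : E) 1)
  have h3 := h1.trans_le ((measure_mono hsub).trans h2)
  intro h
  rw [h, mul_zero] at h3
  exact lt_irrefl _ h3

theorem Gr_pr {f : P2 → ℝ} {z : E} (h : z 2 = f (pr z)) : Gr f (pr z) = z := by
  ext i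
  fin_cases i
  · simp [Gr, pr]
  · simp [Gr, pr]
  · simp [Gr, ← h]

/-- local bound -/
theorem local_bd (hA3 : TaskA3) (g : E → ℝ) (hg : Surf g) (p : E) (hp : p ∈ Sg g) :
    ∃ V : Set E, IsOpen V ∧ p ∈ V ∧ ∃ K : ℝ≥0, ∀ (x : E) (r : ℝ), 0 < r →
      Measure.hausdorffMeasure 2 (Sg g ∩ V ∩ Metric.closedBall x r) ≤
        K * ENNReal.ofReal (r ^ 2) := by
  obtain ⟨A, f, U, hf, hU, hpU, hAf⟩ := hA3 g hg p hp
  obtain ⟨L, t, ht, hL⟩ := (hf.contDiffAt (x := pr (A p))).exists_lipschitzOnWith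
  have hcont : Continuous (fun z => pr (A z)) := pr_lip.continuous.comp A.continuous
  refine ⟨U ∩ (fun z => pr (A z)) ⁻¹' (interior t), hU.inter (isOpen_interior.preimage hcont),
    ⟨hpU, mem_interior_iff_mem_nhds.2 ht⟩, ?_⟩
  obtain ⟨K, hK⟩ := disc
  refine ⟨(1 + L) ^ 2 * K, fun x r hr => ?_⟩
  have hsub : Sg g ∩ (U ∩ (fun z => pr (A z)) ⁻¹' (interior t)) ∩ Metric.closedBall x r ⊆
      A.symm '' (Gr f '' (t ∩ Metric.closedBall (pr (A x)) r)) := by
    rintro z ⟨⟨hz, hzU, hzt⟩, hzr⟩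
    refine ⟨A z, ⟨pr (A z), ⟨interior_subset hzt, ?_⟩, ?_⟩, A.symm_apply_apply z⟩
    · rw [Metric.mem_closedBall] at hzr ⊢
      have h1 := pr_lip.dist_le_mul (A z) (A x)
      rw [NNReal.coe_one, one_mul, A.dist_map] at h1
      exact h1.trans hzr
    · exact Gr_pr ((hAf z hzU).2.1.1 hz)
  calc Measure.hausdorffMeasure 2
        (Sg g ∩ (U ∩ (fun z => pr (A z)) ⁻¹' (interior t)) ∩ Metric.closedBall x r)
      ≤ Measure.hausdorffMeasure 2 (A.symm '' (Gr f '' (t ∩ Metric.closedBall (pr (A x)) r))) :=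
        measure_mono hsub
    _ = Measure.hausdorffMeasure 2 (Gr f '' (t ∩ Metric.closedBall (pr (A x)) r)) :=
        A.symm.isometry.hausdorffMeasure_image (Or.inl (by norm_num)) _
    _ ≤ ((1 + L : ℝ≥0) : ℝ≥0∞) ^ (2 : ℝ) *
        Measure.hausdorffMeasure 2 (t ∩ Metric.closedBall (pr (A x)) r) :=
        ((Gr_lip hL).mono inter_subset_left).hausdorffMeasure_image_le (by norm_num)
    _ ≤ ((1 + L : ℝ≥0) : ℝ≥0∞) ^ (2 : ℝ) * (K * ENNReal.ofReal (r ^ 2)) := by
        gcongr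
        exact (measure_mono inter_subset_right).trans (hK _ _ hr)
    _ = (((1 + L) ^ 2 * K : ℝ≥0) : ℝ≥0∞) * ENNReal.ofReal (r ^ 2) := by
        rw [ENNReal.coe_mul, ENNReal.coe_pow, mul_assoc]
        congr 1
        norm_cast

theorem Sg_compact (g : E → ℝ) (hg : Surf g) : IsCompact (Sg g) := by
  rw [Metric.isCompact_iff_isClosed_bounded]
  constructor
  · exact isClosed_eq hg.smooth.continuous continuous_const
  · obtain ⟨R, hR⟩ := hg.pos
    refine (Metric.isBounded_ball (x := (0 : E)) (r := R)).subset ?_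
    intro x hx
    rw [mem_ball_zero_iff]
    by_contra h
    push Not at h
    have := hR x h
    have hx' : g x = 0 := hx
    rw [hx'] at this
    exact lt_irrefl _ this

theorem taskB1 : TaskB1 := by
  intro hA3 g hg
  have hloc := fun p : Sg g => local_bd hA3 g hg p.1 p.2
  choose V hV hpV K hK using hloc
  obtain ⟨t, ht⟩ := (Sg_compact g hg).elim_finite_subcover V hV (by
    intro p hp
    exact mem_iUnion.2 ⟨⟨p, hp⟩, hpV ⟨p, hp⟩⟩)
  set κ : ℝ≥0∞ := ENNReal.ofReal (4 * Real.pi) / Measure.hausdorffMeasure 2 (Metric.sphere (0 : E) 1)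
    with hκ
  have hκt : κ ≠ ∞ := ENNReal.div_ne_top ENNReal.ofReal_ne_top sphere_pos
  have hbound : ∀ (x : E) (r : ℝ), 0 < r → Measure.hausdorffMeasure 2
      (Metric.closedBall x r ∩ Sg g) ≤ (∑ p ∈ t, (K p : ℝ≥0∞)) * ENNReal.ofReal (r ^ 2) := by
    intro x r hr
    have hsub : Metric.closedBall x r ∩ Sg g ⊆ ⋃ p ∈ t, (Sg g ∩ V p ∩ Metric.closedBall x r) := by
      rintro z ⟨hz1, hz2⟩
      have := ht hz2
      simp only [mem_iUnion] at this ⊢
      obtain ⟨p, hp, hzp⟩ := this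
      exact ⟨p, hp, ⟨hz2, hzp⟩, hz1⟩
    calc Measure.hausdorffMeasure 2 (Metric.closedBall x r ∩ Sg g)
        ≤ Measure.hausdorffMeasure 2 (⋃ p ∈ t, (Sg g ∩ V p ∩ Metric.closedBall x r)) :=
          measure_mono hsub
      _ ≤ ∑ p ∈ t, Measure.hausdorffMeasure 2 (Sg g ∩ V p ∩ Metric.closedBall x r) :=
          measure_biUnion_finset_le _ _
      _ ≤ ∑ p ∈ t, (K p : ℝ≥0∞) * ENNReal.ofReal (r ^ 2) :=
          Finset.sum_le_sum fun p _ => hK p x r hr
      _ = (∑ p ∈ t, (K p : ℝ≥0∞)) * ENNReal.ofReal (r ^ 2) := by rw [Finset.sum_mul]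
  have hfin : κ * ∑ p ∈ t, (K p : ℝ≥0∞) ≠ ∞ := by
    refine ENNReal.mul_ne_top hκt ?_
    exact ENNReal.sum_ne_top.2 fun p _ => ENNReal.coe_ne_top
  refine ⟨(κ * ∑ p ∈ t, (K p : ℝ≥0∞)).toReal + 1, by positivity, fun x r hr => ?_⟩
  have h1 : sig g (Metric.closedBall x r) =
      κ * Measure.hausdorffMeasure 2 (Metric.closedBall x r ∩ Sg g) := by
    unfold sig
    rw [Measure.smul_apply, Measure.restrict_apply Metric.isClosed_closedBall.measurableSet]
    rfl
  rw [h1]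
  calc κ * Measure.hausdorffMeasure 2 (Metric.closedBall x r ∩ Sg g)
      ≤ κ * ((∑ p ∈ t, (K p : ℝ≥0∞)) * ENNReal.ofReal (r ^ 2)) := by
        gcongr
        exact hbound x r hr
    _ = (κ * ∑ p ∈ t, (K p : ℝ≥0∞)) * ENNReal.ofReal (r ^ 2) := by rw [mul_assoc]
    _ = ENNReal.ofReal ((κ * ∑ p ∈ t, (K p : ℝ≥0∞)).toReal) * ENNReal.ofReal (r ^ 2) := by
        rw [ENNReal.ofReal_toReal hfin]
    _ ≤ ENNReal.ofReal ((κ * ∑ p ∈ t, (K p : ℝ≥0∞)).toReal + 1) * ENNReal.ofReal (r ^ 2) := by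
        gcongr
        linarith
    _ = ENNReal.ofReal (((κ * ∑ p ∈ t, (K p : ℝ≥0∞)).toReal + 1) * r ^ 2) := by
        rw [ENNReal.ofReal_mul (by positivity)]

end Pool.Agent.H676R4.NPB1
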