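import Pool.Agent.H197R3.SF.Stmts

/-! Task `TaskAA` of the project H197-SF: convolution of weighted summable functions.
(helper676) -/

set_option autoImplicit false

namespace Pool.Agent.H676R4.SFAA

open Pool.Agent.H197R3.SF

/-- the equivalence `(t, s) ↦ (s, t - s)` -/
def eqv : ℝ × ℝ ≃ ℝ × ℝ where
  toFun p := (p.2, p.1 - p.2)
  invFun p := (p.1 + p.2, p.1)
  left_inv p := by simp
  right_inv p := by simp

theorem norm_ch (ω t : ℝ) : ‖ch ω t‖ = 1 := by
  unfold ch
  rw [Complex.norm_exp]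
  simp

theorem ch_add (ω s t : ℝ) : ch ω (s + t) = ch ω s * ch ω t := by
  unfold ch
  rw [← Complex.exp_add]
  congr 1
  push_cast
  ring

theorem tsum_conv (f g : ℝ → ℂ) (hf : Summable (fun t => ‖f t‖))
    (hg : Summable (fun t => ‖g t‖)) :
    (∑' t, f t) * (∑' t, g t) = ∑' t, ∑' s, f s * g (t - s) := by
  rw [tsum_mul_tsum_of_summable_norm hf hg]
  have hs : Summable (fun p : ℝ × ℝ => f p.1 * g p.2) := summable_mul_of_summable_norm hf hg
  rw [← eqv.tsum_eq (fun p : ℝ × ℝ => f p.1 * g p.2)]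
  have hs2 : Summable (fun p : ℝ × ℝ => f (eqv p).1 * g (eqv p).2) := eqv.summable_iff.mpr hs
  rw [hs2.tsum_prod]
  rfl

theorem taskAA : TaskAA := by
  intro σ c d hσ hc hd
  have hC0 : ∀ t : ℝ, 0 ≤ ‖c t‖ * Real.exp (σ * |t|) := fun t => by positivity
  have hD0 : ∀ t : ℝ, 0 ≤ ‖d t‖ * Real.exp (σ * |t|) := fun t => by positivity
  have h1 : Summable (fun p : ℝ × ℝ => (‖c p.1‖ * Real.exp (σ * |p.1|)) *
      (‖d p.2‖ * Real.exp (σ * |p.2|))) := hc.mul_of_nonneg hd hC0 hD0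
  have h2 : Summable (fun p : ℝ × ℝ => (‖c p.2‖ * Real.exp (σ * |p.2|)) *
      (‖d (p.1 - p.2)‖ * Real.exp (σ * |p.1 - p.2|))) :=
    (eqv.summable_iff (f := fun p : ℝ × ℝ => (‖c p.1‖ * Real.exp (σ * |p.1|)) *
      (‖d p.2‖ * Real.exp (σ * |p.2|)))).mpr h1
  have h3 : Summable (fun p : ℝ × ℝ => ‖c p.2 * d (p.1 - p.2)‖ * Real.exp (σ * |p.1|)) := by
    refine Summable.of_nonneg_of_le (fun p => by positivity) (fun p => ?_) h2
    rw [norm_mul]
    have h4 : Real.exp (σ * |p.1|) ≤ Real.exp (σ * |p.2|) * Real.exp (σ * |p.1 - p.2|) := by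
      rw [← Real.exp_add, Real.exp_le_exp, ← mul_add]
      apply mul_le_mul_of_nonneg_left _ hσ.le
      have := abs_add_le p.2 (p.1 - p.2)
      rwa [add_sub_cancel] at this
    calc ‖c p.2‖ * ‖d (p.1 - p.2)‖ * Real.exp (σ * |p.1|) ≤
          ‖c p.2‖ * ‖d (p.1 - p.2)‖ * (Real.exp (σ * |p.2|) * Real.exp (σ * |p.1 - p.2|)) :=
          mul_le_mul_of_nonneg_left h4 (by positivity)
      _ = _ := by ring
  constructor
  · refine Summable.of_nonneg_of_le (fun t => by positivity) (fun t => ?_) h3.prod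
    have h5 : Summable (fun s : ℝ => ‖c s * d (t - s)‖ * Real.exp (σ * |t|)) := h3.prod_factor t
    have h6 : Summable (fun s : ℝ => ‖c s * d (t - s)‖) :=
      (summable_mul_right_iff (Real.exp_pos _).ne').mp h5
    calc ‖∑' s : ℝ, c s * d (t - s)‖ * Real.exp (σ * |t|) ≤
          (∑' s : ℝ, ‖c s * d (t - s)‖) * Real.exp (σ * |t|) :=
          mul_le_mul_of_nonneg_right (norm_tsum_le_tsum_norm h6) (Real.exp_pos _).le
      _ = ∑' s : ℝ, ‖c s * d (t - s)‖ * Real.exp (σ * |t|) := tsum_mul_right.symm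
  · intro ω
    have hle : ∀ (b : ℝ → ℂ), Summable (fun t => ‖b t‖ * Real.exp (σ * |t|)) →
        Summable (fun t : ℝ => ‖b t * ch ω t‖) := by
      intro b hb
      refine Summable.of_nonneg_of_le (fun t => norm_nonneg _) (fun t => ?_) hb
      rw [norm_mul, norm_ch, mul_one]
      have : 1 ≤ Real.exp (σ * |t|) := Real.one_le_exp (by positivity)
      exact le_mul_of_one_le_right (norm_nonneg _) this
    have hf := hle c hc
    have hg := hle d hd
    rw [tsum_conv _ _ hf hg]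
    apply tsum_congr
    intro t
    rw [← tsum_mul_right]
    apply tsum_congr
    intro s
    have h7 : ch ω t = ch ω s * ch ω (t - s) := by
      rw [← ch_add, add_sub_cancel]
    rw [h7]
    ring

end Pool.Agent.H676R4.SFAA
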