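import Pool.Agent.H684R3.USS.Stmts

set_option autoImplicit false

/-!
Task H of the project H684-USS.
-/

namespace Pool.Agent.H676R4.USSTaskH

open Polynomial Finset Pool.Agent.H692R2.USS

/-- a separable split polynomial over `ZMod p` with nonzero constant term divides `X^(p-1)-1`. -/
theorem dvd_of_split {p : ℕ} [Fact p.Prime] (f : (ZMod p)[X]) (hf : f ≠ 0) (hs : f.Splits)
    (hsep : f.Separable) (h0 : f.eval 0 ≠ 0) : f ∣ X ^ (p - 1) - 1 := by
  have hp1 : 0 < p - 1 := by
    have := (Fact.out : p.Prime).two_le; omega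
  have hne : (X ^ (p - 1) - 1 : (ZMod p)[X]) ≠ 0 := by
    rw [← C_1]
    exact X_pow_sub_C_ne_zero hp1 1
  rw [hs.dvd_iff_roots_le_roots hf hne]
  rw [Multiset.le_iff_subset (nodup_roots hsep)]
  intro a ha
  rw [mem_roots hf] at ha
  rw [mem_roots hne]
  have ha0 : a ≠ 0 := by
    rintro rfl
    exact h0 ha
  simp [IsRoot, ZMod.pow_card_sub_one_eq_one ha0]

/-- a sequence killed by `X^T-1` is `T`-periodic -/
theorem periodic_of_ann {R : Type*} [CommRing R] (T : ℕ) (w : ℕ → R)
    (hw : Ann (X ^ T - 1 : R[X]) w) (n : ℕ) : w (n + T) = w n := by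
  have h2 := congrFun hw n
  rw [map_sub, map_pow, aeval_X, map_one, LinearMap.sub_apply, Pi.sub_apply, E_pow_apply,
    Module.End.one_apply, Pi.zero_apply, sub_eq_zero] at h2
  exact h2

theorem mod_eq {R : Type*} [CommRing R] (T : ℕ) (w : ℕ → R)
    (hw : Ann (X ^ T - 1 : R[X]) w) (a b : ℕ) (hab : a ≡ b [MOD T]) : w a = w b := by
  have h : Function.Periodic w T := fun n => periodic_of_ann T w hw n
  rw [← h.map_mod_nat a, ← h.map_mod_nat b, hab]

theorem taskH : Pool.Agent.H684R3.USS.TaskH := by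
  intro g s t rr m k p n b v hg hdeg hcoeff hst hrr0 hrr hk hm hann hbound hgood hdvd
  obtain ⟨hp, hsplit, hlog, hbn, hgen⟩ := hgood
  haveI : Fact p.Prime := ⟨hp⟩
  have hkp : k < p := by
    have h1 : 2 ^ Nat.log 2 p ≤ p := Nat.pow_log_le_self 2 hp.pos.ne'
    have h2 : k ≤ Nat.log 2 p := by
      refine le_trans ?_ hlog
      nlinarith [Nat.zero_le (k * (b + 1)), Nat.zero_le (k * k * (b + 1)), Nat.zero_le (k * b), Nat.zero_le (k * k)]
    calc k < 2 ^ k := Nat.lt_two_pow_self
      _ ≤ 2 ^ Nat.log 2 p := Nat.pow_le_pow_right (by norm_num) h2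
      _ ≤ p := h1
  have hrrp : ((rr : ℤ) : ZMod p) ≠ 0 := by
    intro h
    rw [ZMod.intCast_zmod_eq_zero_iff_dvd] at h
    have h3 := Int.le_of_dvd (abs_pos.2 hrr0) ((dvd_abs _ _).2 h)
    have : (k : ℤ) < p := by exact_mod_cast hkp
    omega
  set φ := Int.castRingHom (ZMod p) with hφ
  set gp := g.map φ with hgp
  have hgpm : gp.Monic := hg.map φ
  have hgps : gp.Splits := hsplit g hg hdeg hcoeff
  have hmap : s.map φ * gp + t.map φ * (X * derivative gp) = C (φ rr) := by
    have := congrArg (Polynomial.map φ) hst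
    rw [Polynomial.map_add, Polynomial.map_mul, Polynomial.map_mul, Polynomial.map_mul,
      Polynomial.map_X, Polynomial.map_C, ← Polynomial.derivative_map] at this
    exact this
  have hφrr : φ rr ≠ 0 := hrrp
  have hcop : IsCoprime gp (X * derivative gp) := by
    refine ⟨C (φ rr)⁻¹ * s.map φ, C (φ rr)⁻¹ * t.map φ, ?_⟩
    rw [mul_assoc, mul_assoc, ← mul_add, hmap, ← C_mul, inv_mul_cancel₀ hφrr, C_1]
  have hsep : gp.Separable := (IsCoprime.of_mul_right_right hcop)
  have hcopX : IsCoprime gp X := IsCoprime.of_mul_right_left hcop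
  have hev0 : gp.eval 0 ≠ 0 := by
    intro h
    obtain ⟨a, c, hac⟩ := hcopX
    have := congrArg (Polynomial.eval 0) hac
    simp [h] at this
  have hdiv : gp ∣ X ^ (p - 1) - 1 := dvd_of_split gp hgpm.ne_zero hgps hsep hev0
  have hvb : ∀ j < m, ((v j n : ℤ) : ZMod p) = ((v j b : ℤ) : ZMod p) := by
    intro j hj
    have h1 : Ann gp (fun n => φ (v j n)) := (hann j hj).map φ
    exact mod_eq (p - 1) (fun n => φ (v j n)) (h1.of_dvd hdiv) n b hbn.symm
  set f : ℤ[X] := ∑ j ∈ Finset.range m, C (v j b) * X ^ j with hf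
  have hcoef : ∀ i, f.coeff i = if i < m then v i b else 0 := by
    intro i
    rw [hf, finset_sum_coeff]
    simp only [coeff_C_mul_X_pow]
    rw [Finset.sum_ite_eq (Finset.range m) i (fun j => v j b)]
    simp only [Finset.mem_range]
  have hfeval : (p : ℤ) ∣ f.eval (n : ℤ) := by
    rw [← ZMod.intCast_zmod_eq_zero_iff_dvd]
    rw [← ZMod.intCast_zmod_eq_zero_iff_dvd] at hdvd
    rw [← hdvd, hf, eval_finset_sum, Int.cast_sum, Int.cast_sum]
    refine Finset.sum_congr rfl fun j hj => ?_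
    rw [Finset.mem_range] at hj
    simp only [eval_mul, eval_C, eval_pow, eval_X, Int.cast_mul, Int.cast_pow, Int.cast_natCast]
    rw [hvb j hj, mul_comm]
  have hfdeg : f.natDegree ≤ k := by
    rw [natDegree_le_iff_coeff_eq_zero]
    intro N hN
    rw [hcoef, if_neg (by omega)]
  have hfb : ∀ i, |f.coeff i| < 2 ^ (Nat.log 2 p / (4 * (k + 1))) := by
    intro i
    rw [hcoef]
    split_ifs with hi
    · refine lt_of_lt_of_le (hbound i hi b) ?_
      refine pow_le_pow_right₀ (by norm_num) ?_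
      rw [Nat.le_div_iff_mul_le (by positivity)]
      refine le_trans (le_of_eq ?_) hlog
      ring
    · simp
  have hf0 : f = 0 := by
    by_contra hne
    exact hgen f hne hfdeg hfb hfeval
  intro j hj
  have := hcoef j
  rw [hf0, if_pos hj, coeff_zero] at this
  exact this.symm

end Pool.Agent.H676R4.USSTaskH
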