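import Pool.Agent.H680R3.ZP.Stmts

/-! Task `TaskY` of the project ZP: Artin-Schreier-Witt generators of a `ℤ_p`-tower.  (helper676) -/

set_option autoImplicit false

open Pool.Agent.H639R3

namespace Pool.Agent.H676R4.ZPY

/-! ### abstract algebra -/

section abs

variable {R : Type*} [CommRing R]

theorem asw_step (s : R →+* R) (q : ℕ) (θ : R) (hq : s^[q] θ = θ)
    (h1 : ∑ j ∈ Finset.range q, s^[j] θ = 1) :
    s (-∑ j ∈ Finset.range q, (j : R) * s^[j] θ) =
      -∑ j ∈ Finset.range q, (j : R) * s^[j] θ + 1 - q * θ := by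
  have e1 : s (∑ j ∈ Finset.range q, (j : R) * s^[j] θ) =
      ∑ j ∈ Finset.range q, (j : R) * s^[j + 1] θ := by
    rw [map_sum]
    apply Finset.sum_congr rfl
    intro j _
    rw [map_mul, map_natCast, Function.iterate_succ_apply']
  have e2 : ∑ j ∈ Finset.range q, (j : R) * s^[j + 1] θ =
      ∑ j ∈ Finset.range q, (((j + 1 : ℕ) : R) * s^[j + 1] θ) -
        ∑ j ∈ Finset.range q, s^[j + 1] θ := by
    rw [← Finset.sum_sub_distrib]
    apply Finset.sum_congr rfl
    intro j _
    push_cast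
    ring
  have e3 := Finset.sum_range_succ' (fun j => ((j : ℕ) : R) * s^[j] θ) q
  have e4 := Finset.sum_range_succ (fun j => ((j : ℕ) : R) * s^[j] θ) q
  have e5 := Finset.sum_range_succ' (fun j => s^[j] θ) q
  have e6 := Finset.sum_range_succ (fun j => s^[j] θ) q
  simp only [Nat.cast_zero, zero_mul, add_zero, Function.iterate_zero, id_eq] at e3 e5
  rw [hq] at e4 e6
  rw [map_neg, e1, e2, ← e3, e4]
  have e7 : ∑ j ∈ Finset.range q, s^[j + 1] θ = 1 := by
    have := e5.symm.trans e6
    rw [h1] at this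
    linear_combination this
  rw [e7]
  ring

theorem asw_iter (s : R →+* R) (q : ℕ) (y : R) (h : (q : R) ∣ s y - y - 1) (m : ℕ) :
    (q : R) ∣ s^[m] y - y - m := by
  induction m with
  | zero => simp
  | succ m ih =>
    have h1 : (q : R) ∣ s (s^[m] y - y - m) := by
      obtain ⟨c, hc⟩ := ih
      exact ⟨s c, by rw [hc, map_mul, map_natCast]⟩
    rw [map_sub, map_sub, map_natCast] at h1
    rw [Function.iterate_succ_apply']
    have h2 := dvd_add h1 h
    have h3 : s (s^[m] y) - s y - (m : R) + (s y - y - 1) = s (s^[m] y) - y - ((m + 1 : ℕ) : R) := by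
      push_cast
      ring
    rwa [h3] at h2

theorem iterate_comm {s g : R →+* R} (hsg : ∀ x, g (s x) = s (g x)) (j : ℕ) (x : R) :
    g (s^[j] x) = s^[j] (g x) := by
  induction j with
  | zero => rfl
  | succ j ih => rw [Function.iterate_succ_apply', Function.iterate_succ_apply', hsg, ih]

theorem iterate_mul (s : R →+* R) (j : ℕ) (x y : R) : s^[j] (x * y) = s^[j] x * s^[j] y := by
  induction j with
  | zero => rfl
  | succ j ih => rw [Function.iterate_succ_apply', Function.iterate_succ_apply',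
      Function.iterate_succ_apply', ih, map_mul]

theorem iterate_fix (s : R →+* R) (j : ℕ) (x : R) (h : s x = x) : s^[j] x = x := by
  induction j with
  | zero => rfl
  | succ j ih => rw [Function.iterate_succ_apply', ih, h]

theorem inv_fix (g : R →+* R) {u v : R} (huv : u * v = 1) (hu : g u = u) : g v = v := by
  have h1 : u * g v = 1 := by
    have := congrArg g huv
    rwa [map_mul, map_one, hu] at this
  calc g v = (u * v) * g v := by rw [huv, one_mul]
    _ = (u * g v) * v := by ring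
    _ = v := by rw [h1, one_mul]

/-- The abstract construction. -/
theorem abs_asw (s : R →+* R) (q : ℕ) (θ0 : R) (hq : s^[q] θ0 = θ0)
    (hu : IsUnit (∑ j ∈ Finset.range q, s^[j] θ0)) :
    ∃ y : R, (∀ m : ℕ, (q : R) ∣ s^[m] y - y - m) ∧
      ∀ g : R →+* R, (∀ x, g (s x) = s (g x)) → g θ0 = θ0 → g y = y := by
  obtain ⟨v, hv⟩ := hu.exists_right_inv
  set u := ∑ j ∈ Finset.range q, s^[j] θ0 with hudef
  have hsu : s u = u := by
    have e5 := Finset.sum_range_succ' (fun j => s^[j] θ0) q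
    have e6 := Finset.sum_range_succ (fun j => s^[j] θ0) q
    simp only [Function.iterate_zero, id_eq] at e5
    rw [hq] at e6
    rw [hudef, map_sum]
    have e7 : ∀ j, s (s^[j] θ0) = s^[j + 1] θ0 := fun j => by rw [Function.iterate_succ_apply']
    simp only [e7]
    have := e5.symm.trans e6
    linear_combination this
  have hsv : s v = v := inv_fix s hv hsu
  have hθj : ∀ j, s^[j] (θ0 * v) = s^[j] θ0 * v := by
    intro j
    rw [iterate_mul, iterate_fix s j v hsv]
  have h1 : ∑ j ∈ Finset.range q, s^[j] (θ0 * v) = 1 := by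
    simp only [hθj]
    rw [← Finset.sum_mul]
    exact hv
  have hθq : s^[q] (θ0 * v) = θ0 * v := by rw [hθj, hq]
  refine ⟨-∑ j ∈ Finset.range q, (j : R) * s^[j] (θ0 * v), ?_, ?_⟩
  · intro m
    apply asw_iter
    refine ⟨-(θ0 * v), ?_⟩
    rw [asw_step s q (θ0 * v) hθq h1]
    ring
  · intro g hg hgθ
    have hgu : g u = u := by
      rw [hudef, map_sum]
      apply Finset.sum_congr rfl
      intro j _
      rw [iterate_comm hg, hgθ]
    have hgv : g v = v := inv_fix g hv hgu
    rw [map_neg, map_sum]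
    congr 1
    apply Finset.sum_congr rfl
    intro j _
    rw [map_mul, map_natCast, iterate_comm hg, map_mul, hgθ, hgv]

end abs

/-! ### Witt vectors -/

theorem VZ_of_dvd {p : ℕ} [Fact p.Prime] {R : Type*} [CommRing R] [CharP R p] (n : ℕ)
    (w : WittVector p R) (h : ((p ^ n : ℕ) : WittVector p R) ∣ w) : H680ZP.VZ n w := by
  obtain ⟨c, rfl⟩ := h
  intro i hi
  rw [mul_comm]
  push_cast
  induction n generalizing c i with
  | zero => exact absurd hi (Nat.not_lt_zero _)
  | succ n ih =>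
    rw [pow_succ, ← mul_assoc]
    rcases i with _ | i
    · exact WittVector.mul_charP_coeff_zero _
    · rw [WittVector.mul_charP_coeff_succ, ih c i (by omega),
        zero_pow (Fact.out : p.Prime).ne_zero]

/-! ### The tower -/

section tower

variable {p : ℕ} [Fact p.Prime] {k K L : Type} [Field k] [Field K] [Field L]
    [Algebra k K] [Algebra K L] [Algebra k L] [IsScalarTower k K L] (T : ZpTower p k K L)

theorem aut_nat_succ (m : ℕ) (a : L) : T.aut ((m + 1 : ℕ) : ℤ_[p]) a = T.aut 1 (T.aut m a) := by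
  rw [Nat.cast_succ, T.aut_add]

theorem exists_trace_ne_zero (n : ℕ) : ∃ b ∈ T.layer n,
    ∑ j ∈ Finset.range (p ^ n), T.aut (j : ℤ_[p]) b ≠ 0 := by
  classical
  by_contra hcon
  push Not at hcon
  have hp : p.Prime := Fact.out
  let χ : Fin (p ^ n) → (T.layer n →* L) := fun j =>
    ((T.aut ((j : ℕ) : ℤ_[p]) : L →+* L).toMonoidHom).comp
      ((algebraMap (T.layer n) L).toMonoidHom)
  have hχ : ∀ j (b : T.layer n), χ j b = T.aut ((j : ℕ) : ℤ_[p]) (b : L) := fun _ _ => rfl
  have hinj : Function.Injective χ := by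
    intro i j hij
    have h1 : T.aut (((i : ℕ) : ℤ_[p]) - ((j : ℕ) : ℤ_[p])) ∈ T.sub n := by
      rw [T.mem_sub_iff]
      intro a ha
      have h2 : T.aut (-((j : ℕ) : ℤ_[p])) a ∈ T.layer n := T.aut_layer n _ a ha
      have h3 := DFunLike.congr_fun hij ⟨_, h2⟩
      rw [hχ, hχ] at h3
      have h4 : T.aut ((j : ℕ) : ℤ_[p]) (T.aut (-((j : ℕ) : ℤ_[p])) a) = a := by
        rw [← T.aut_add, neg_add_cancel, T.aut_zero]
      have h5 : T.aut ((i : ℕ) : ℤ_[p]) (T.aut (-((j : ℕ) : ℤ_[p])) a) =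
          T.aut (((i : ℕ) : ℤ_[p]) - ((j : ℕ) : ℤ_[p])) a := by
        rw [← T.aut_add]
        congr 2
        ring
      rw [← h5]
      exact h3.trans h4
    rw [T.mem_sub] at h1
    have h6 : (T.iso (T.aut (((i : ℕ) : ℤ_[p]) - ((j : ℕ) : ℤ_[p])))).toAdd =
        (((i : ℕ) : ℤ_[p]) - ((j : ℕ) : ℤ_[p])) := by
      unfold ZpTower.aut
      simp
    rw [h6] at h1
    have h7 : (p : ℤ_[p]) ^ n ∣ (((i : ℕ) : ℤ) - ((j : ℕ) : ℤ) : ℤ) := by
      push_cast
      exact h1
    rw [PadicInt.pow_p_dvd_int_iff] at h7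
    have hi := i.2
    have hj := j.2
    have h8 : (((i : ℕ) : ℤ) - ((j : ℕ) : ℤ)) = 0 := by
      apply Int.eq_zero_of_abs_lt_dvd h7
      rw [abs_lt]
      have hi' : ((i : ℕ) : ℤ) < ((p : ℤ) ^ n) := by exact_mod_cast hi
      have hj' : ((j : ℕ) : ℤ) < ((p : ℤ) ^ n) := by exact_mod_cast hj
      constructor <;> omega
    apply Fin.ext
    omega
  have hli := (linearIndependent_monoidHom (T.layer n) L).comp χ hinj
  rw [Fintype.linearIndependent_iff] at hli
  have hpos : 0 < p ^ n := pow_pos hp.pos _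
  have h9 := hli (fun _ => 1) (by
    funext b
    simp only [Function.comp_apply, one_smul, Finset.sum_apply, Pi.zero_apply]
    have := hcon b b.2
    rw [Finset.sum_range] at this
    exact this) ⟨0, hpos⟩
  exact one_ne_zero h9

theorem exists_trace_one (n : ℕ) : ∃ a ∈ T.layer n,
    ∑ j ∈ Finset.range (p ^ n), T.aut (j : ℤ_[p]) a = 1 := by
  obtain ⟨b, hb, hc⟩ := exists_trace_ne_zero T n
  set c := ∑ j ∈ Finset.range (p ^ n), T.aut (j : ℤ_[p]) b with hcdef
  have hcs : T.aut 1 c = c := by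
    have e5 := Finset.sum_range_succ' (fun j : ℕ => T.aut (j : ℤ_[p]) b) (p ^ n)
    have e6 := Finset.sum_range_succ (fun j : ℕ => T.aut (j : ℤ_[p]) b) (p ^ n)
    have e7 : T.aut ((p ^ n : ℕ) : ℤ_[p]) b = b := by
      have := T.aut_fix n 1 b hb
      rw [mul_one] at this
      push_cast
      exact this
    simp only [Nat.cast_zero, T.aut_zero] at e5
    simp only [e7] at e6
    have e8 : T.aut 1 c = ∑ j ∈ Finset.range (p ^ n), T.aut ((j + 1 : ℕ) : ℤ_[p]) b := by
      rw [hcdef, map_sum]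
      apply Finset.sum_congr rfl
      intro j _
      rw [aut_nat_succ]
    have := e5.symm.trans e6
    rw [e8, hcdef]
    linear_combination this
  have hcj : ∀ j : ℕ, T.aut (j : ℤ_[p]) c = c := by
    intro j
    induction j with
    | zero => rw [Nat.cast_zero, T.aut_zero]
    | succ j ih => rw [aut_nat_succ, ih, hcs]
  have hcmem : c ∈ T.layer n := by
    rw [hcdef]
    exact sum_mem fun j _ => T.aut_layer n _ b hb
  refine ⟨b / c, div_mem hb hcmem, ?_⟩
  have h1 : ∀ j : ℕ, T.aut (j : ℤ_[p]) (b / c) = T.aut (j : ℤ_[p]) b / c := by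
    intro j
    rw [map_div₀, hcj]
  simp only [h1]
  rw [← Finset.sum_div, ← hcdef, div_self hc]

/-- the action on Witt vectors -/
noncomputable def M (z : ℤ_[p]) : WittVector p L →+* WittVector p L :=
  WittVector.map ((T.aut z : L ≃ₐ[K] L) : L →+* L)

theorem M_coeff (z : ℤ_[p]) (x : WittVector p L) (i : ℕ) :
    (M T z x).coeff i = T.aut z (x.coeff i) := WittVector.map_coeff _ _ _

theorem M_add (z z' : ℤ_[p]) (x : WittVector p L) : M T (z + z') x = M T z' (M T z x) := by
  ext i
  rw [M_coeff, M_coeff, M_coeff, T.aut_add]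

theorem M_comm (z z' : ℤ_[p]) (x : WittVector p L) : M T z (M T z' x) = M T z' (M T z x) := by
  rw [← M_add, ← M_add, add_comm]

theorem M_iterate (j : ℕ) (x : WittVector p L) : (M T 1)^[j] x = M T (j : ℤ_[p]) x := by
  induction j with
  | zero =>
    ext i
    rw [M_coeff, Nat.cast_zero, T.aut_zero]
    rfl
  | succ j ih => rw [Function.iterate_succ_apply', ih, Nat.cast_succ, M_add]

theorem M_teich (z : ℤ_[p]) (a : L) :
    M T z (WittVector.teichmuller p a) = WittVector.teichmuller p (T.aut z a) :=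
  WittVector.map_teichmuller _ _ _

end tower

theorem taskY : H680ZP.TaskY := by
  intro p hp k K L _ _ _ _ _ _ _ _ _ T n
  have : CharP L p := charP_of_injective_algebraMap (algebraMap k L).injective p
  obtain ⟨a, ha, hsum⟩ := exists_trace_one T n
  set θ0 : WittVector p L := WittVector.teichmuller p a with hθ0
  have hfix : ∀ w : ℤ_[p], M T ((p : ℤ_[p]) ^ n * w) θ0 = θ0 := by
    intro w
    rw [hθ0, M_teich, T.aut_fix n w a ha]
  have hq : (M T 1)^[p ^ n] θ0 = θ0 := by
    rw [M_iterate]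
    have := hfix 1
    rw [mul_one] at this
    push_cast
    exact this
  have hu : IsUnit (∑ j ∈ Finset.range (p ^ n), (M T 1)^[j] θ0) := by
    apply WittVector.isUnit_of_coeff_zero_ne_zero
    have h1 : (∑ j ∈ Finset.range (p ^ n), (M T 1)^[j] θ0).coeff 0 =
        ∑ j ∈ Finset.range (p ^ n), T.aut (j : ℤ_[p]) a := by
      have h2 : ∀ x : WittVector p L, x.coeff 0 = WittVector.constantCoeff x := fun _ => rfl
      rw [h2, map_sum]
      apply Finset.sum_congr rfl
      intro j _
      rw [← h2, M_iterate, M_coeff, hθ0, WittVector.teichmuller_coeff_zero]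
    rw [h1, hsum]
    exact one_ne_zero
  obtain ⟨y, hy1, hy2⟩ := abs_asw (M T 1) (p ^ n) θ0 hq hu
  refine ⟨y, fun σ => ?_⟩
  apply VZ_of_dvd
  set z : ℤ_[p] := (T.iso σ).toAdd with hz
  set m : ℕ := (PadicInt.toZModPow n z).val with hm
  have hex : H680ZP.ex T n σ = m := rfl
  have hNZ : NeZero (p ^ n) := ⟨(pow_pos hp.out.pos _).ne'⟩
  have h1 : z - (m : ℤ_[p]) ∈ RingHom.ker (PadicInt.toZModPow (p := p) n) := by
    rw [RingHom.mem_ker, map_sub, map_natCast, hm, ZMod.natCast_val, ZMod.cast_id, sub_self]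
  rw [PadicInt.ker_toZModPow, Ideal.mem_span_singleton] at h1
  obtain ⟨w, hw⟩ := h1
  have hzm : z = (p : ℤ_[p]) ^ n * w + (m : ℤ_[p]) := by rw [← hw]; ring
  have hσ : WittVector.map (σ : L →+* L) y = (M T 1)^[m] y := by
    have h3 : WittVector.map (σ : L →+* L) y = M T z y := by
      unfold M
      rw [hz, T.aut_surj]
    rw [h3, hzm, M_add, M_iterate,
      hy2 (M T ((p : ℤ_[p]) ^ n * w)) (fun x => M_comm T _ _ x) (hfix w)]
  rw [hσ, hex]
  exact hy1 m

end Pool.Agent.H676R4.ZPY
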